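import Pool.Agent.Helper93.Fin.E
import Pool.Agent.helper18.FinLim3

/-!
# Module FIN-Lim5 of MP_f09395_gt

Scaled (second order) limit of the curvature form of the perturbed submersion metrics at a
commuting pair of `𝔭`.
-/

set_option linter.unusedSectionVars false

noncomputable section

namespace Pool.Agent.Helper93.Fin

open scoped ContDiff
open Filter Topology

namespace Lim5

section clm

variable {E F : Type*} [NormedAddCommGroup E] [NormedSpace ℝ E] [FiniteDimensional ℝ E]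
  [NormedAddCommGroup F] [NormedSpace ℝ F]

/-- pointwise convergence of linear maps on a finite dimensional space is norm convergence -/
lemma clm_ptwise {ι : Type*} {l : Filter ι} {T : ι → E →L[ℝ] F} {T₀ : E →L[ℝ] F}
    (h : ∀ x, Tendsto (fun n => T n x) l (𝓝 (T₀ x))) : Tendsto T l (𝓝 T₀) := by
  classical
  obtain ⟨C, hC, hb⟩ := (Module.finBasis ℝ E).exists_opNorm_le (F := F)
  rw [Metric.tendsto_nhds]
  intro ε hε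
  have h1 : ∀ i, ∀ᶠ n in l, dist (T n (Module.finBasis ℝ E i)) (T₀ (Module.finBasis ℝ E i)) <
      ε / (2 * C) := fun i => Metric.tendsto_nhds.1 (h _) _ (by positivity)
  have h2 := eventually_all.2 h1
  filter_upwards [h2] with n hn
  rw [dist_eq_norm]
  have := hb (u := T n - T₀) (M := ε / (2 * C)) (by positivity) (fun i => by
    have := (hn i).le
    rw [dist_eq_norm] at this
    simpa using this)
  refine this.trans_lt ?_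
  have : C * (ε / (2 * C)) = ε / 2 := by field_simp
  rw [this]; linarith

/-- the continuous bilinear map attached to a bilinear function -/
lemma exists_clm (B : E → E → ℝ) (h1 : ∀ x x' y, B (x + x') y = B x y + B x' y)
    (h2 : ∀ (c : ℝ) x y, B (c • x) y = c * B x y) (h3 : ∀ x y y', B x (y + y') = B x y + B x y')
    (h4 : ∀ (c : ℝ) x y, B x (c • y) = c * B x y) :
    ∃ T : E →L[ℝ] E →L[ℝ] ℝ, ∀ x y, T x y = B x y := by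
  let T1 : E → E →L[ℝ] ℝ := fun x => LinearMap.toContinuousLinearMap
    { toFun := B x, map_add' := h3 x, map_smul' := fun c y => h4 c x y }
  have hT1 : ∀ x y, T1 x y = B x y := fun x y => rfl
  let T2 : E →ₗ[ℝ] E →L[ℝ] ℝ :=
    { toFun := T1
      map_add' := fun x x' => by ext y; simp [hT1, h1]
      map_smul' := fun c x => by ext y; simp [hT1, h2] }
  exact ⟨LinearMap.toContinuousLinearMap T2, fun x y => rfl⟩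

lemma solve_tendsto' {ι : Type*} {l : Filter ι} {B : ι → E →L[ℝ] E →L[ℝ] ℝ}
    {B₀ : E →L[ℝ] E →L[ℝ] ℝ} (hB : Tendsto B l (𝓝 B₀)) (hpos : ∀ w : E, w ≠ 0 → 0 < B₀ w w)
    {f : ι → E →L[ℝ] ℝ} {f₀ : E →L[ℝ] ℝ} (hf : Tendsto f l (𝓝 f₀)) {x : ι → E} {x₀ : E}
    (hx : ∀ n, B n (x n) = f n) (hx₀ : B₀ x₀ = f₀) : Tendsto x l (𝓝 x₀) := by
  obtain ⟨c, hc, H⟩ := exists_coercive B₀ hpos
  have h1 : Tendsto (fun n => ‖f n - B n x₀‖) l (𝓝 0) := by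
    have h := (hf.sub (Helper93.Fin.clm_tendsto hB (tendsto_const_nhds (x := x₀)))).norm
    rwa [hx₀, sub_self, norm_zero] at h
  have h2 : ∀ᶠ n in l, ‖B n - B₀‖ < c / 2 := by
    exact ((tendsto_iff_norm_sub_tendsto_zero (E := E →L[ℝ] E →L[ℝ] ℝ)).1 hB).eventually
      (gt_mem_nhds (by positivity))
  rw [tendsto_iff_norm_sub_tendsto_zero]
  refine squeeze_zero' (g := fun n => (2 / c) * ‖f n - B n x₀‖)
    (Eventually.of_forall fun n => norm_nonneg _) ?_ (by simpa using h1.const_mul (2 / c))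
  filter_upwards [h2] with n hn
  have e1 : B n (x n - x₀) (x n - x₀) ≤ ‖f n - B n x₀‖ * ‖x n - x₀‖ := by
    have e : B n (x n - x₀) = f n - B n x₀ := by rw [map_sub, hx n]
    rw [e]
    exact (le_abs_self _).trans ((f n - B n x₀).le_opNorm _)
  have e2 : B₀ (x n - x₀) (x n - x₀) - B n (x n - x₀) (x n - x₀)
      ≤ ‖B n - B₀‖ * ‖x n - x₀‖ * ‖x n - x₀‖ := by
    have e : B₀ (x n - x₀) (x n - x₀) - B n (x n - x₀) (x n - x₀)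
        = -((B n - B₀) (x n - x₀) (x n - x₀)) := by
      simp only [sub_apply]; ring
    rw [e]
    exact (neg_le_abs _).trans ((B n - B₀).le_opNorm₂ _ _)
  have e3 := H (x n - x₀)
  have hy := norm_nonneg (x n - x₀)
  rcases hy.eq_or_lt with h0 | h0
  · rw [← h0]; positivity
  · have e4 : c / 2 * ‖x n - x₀‖ * ‖x n - x₀‖ ≤ ‖f n - B n x₀‖ * ‖x n - x₀‖ := by
      have e5 : ‖B n - B₀‖ * ‖x n - x₀‖ * ‖x n - x₀‖ ≤ c / 2 * ‖x n - x₀‖ * ‖x n - x₀‖ := by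
        gcongr
      nlinarith
    have e6 := le_of_mul_le_mul_right e4 h0
    rw [div_mul_eq_mul_div, le_div_iff₀ hc]
    linarith

lemma solve' {ι : Type*} {l : Filter ι} {B : ι → E → E → ℝ} {B₀ : E → E → ℝ}
    (h1 : ∀ n x x' y, B n (x + x') y = B n x y + B n x' y)
    (h2 : ∀ n (c : ℝ) x y, B n (c • x) y = c * B n x y)
    (h3 : ∀ n x y y', B n x (y + y') = B n x y + B n x y')
    (h4 : ∀ n (c : ℝ) x y, B n x (c • y) = c * B n x y)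
    (k1 : ∀ x x' y, B₀ (x + x') y = B₀ x y + B₀ x' y)
    (k2 : ∀ (c : ℝ) x y, B₀ (c • x) y = c * B₀ x y) (k3 : ∀ x y y', B₀ x (y + y') = B₀ x y + B₀ x y')
    (k4 : ∀ (c : ℝ) x y, B₀ x (c • y) = c * B₀ x y)
    (hpt : ∀ x z, Tendsto (fun n => B n x z) l (𝓝 (B₀ x z))) (hpos : ∀ w, w ≠ 0 → 0 < B₀ w w)
    {x : ι → E} {x₀ : E} (hf : ∀ z, Tendsto (fun n => B n (x n) z) l (𝓝 (B₀ x₀ z))) :
    Tendsto x l (𝓝 x₀) := by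
  choose T hT using fun n => exists_clm (B n) (h1 n) (h2 n) (h3 n) (h4 n)
  obtain ⟨T₀, hT₀⟩ := exists_clm B₀ k1 k2 k3 k4
  refine solve_tendsto' (B := T) (B₀ := T₀) (f := fun n => T n (x n)) (f₀ := T₀ x₀) ?_ ?_ ?_
    (fun n => rfl) rfl
  · refine clm_ptwise fun x => clm_ptwise fun z => ?_
    simp only [hT, hT₀]; exact hpt x z
  · intro w hw; rw [hT₀]; exact hpos w hw
  · refine clm_ptwise fun z => ?_
    simp only [hT, hT₀]; exact hf z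

end clm

variable {𝔸 : Type*} [NormedRing 𝔸] [NormedAlgebra ℝ 𝔸] [FiniteDimensional ℝ 𝔸]
variable {h k p m : Submodule ℝ 𝔸} {P : 𝔸 →L[ℝ] m} {φ : m → ℝ}
variable {Q : 𝔸 →ₗ[ℝ] 𝔸 →ₗ[ℝ] ℝ} {Ph Pk Pp : 𝔸 →L[ℝ] 𝔸}

lemma Q_tendsto (Q : 𝔸 →ₗ[ℝ] 𝔸 →ₗ[ℝ] ℝ) {ι : Type*} {l : Filter ι} {x y : ι → 𝔸} {x₀ y₀ : 𝔸}
    (hx : Tendsto x l (𝓝 x₀)) (hy : Tendsto y l (𝓝 y₀)) :
    Tendsto (fun n => Q (x n) (y n)) l (𝓝 (Q x₀ y₀)) := by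
  obtain ⟨T, hT⟩ := exists_clm (fun x y => Q x y) (by simp) (by simp) (by simp) (by simp)
  simp only [← hT]
  have h1 : Tendsto (fun n => T (x n)) l (𝓝 (T x₀)) := (T.continuous.tendsto x₀).comp hx
  exact Helper93.Fin.clm_tendsto h1 hy

lemma br_tendsto {ι : Type*} {l : Filter ι} {x y : ι → 𝔸} {x₀ y₀ : 𝔸}
    (hx : Tendsto x l (𝓝 x₀)) (hy : Tendsto y l (𝓝 y₀)) :
    Tendsto (fun n => ⁅x n, y n⁆) l (𝓝 ⁅x₀, y₀⁆) := by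
  simp only [Ring.lie_def]
  exact (hx.mul hy).sub (hy.mul hx)

/-- decomposition -/
lemma dec (hS : SymData h k p Q Ph Pk Pp) {X : 𝔸} (hX : X ∈ h ⊔ k ⊔ p) :
    Ph X ∈ h ∧ Pk X ∈ k ∧ Pp X ∈ p ∧ X = Ph X + Pk X + Pp X := by
  obtain ⟨Y, hY, Z, hZ, rfl⟩ := Submodule.mem_sup.1 hX
  obtain ⟨V, hV, W, hW, rfl⟩ := Submodule.mem_sup.1 hY
  have e1 : Ph (V + W + Z) = V := by
    simp [hS.Ph_h V hV, hS.Ph_k W hW, hS.Ph_p Z hZ]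
  have e2 : Pk (V + W + Z) = W := by
    simp [hS.Pk_h V hV, hS.Pk_k W hW, hS.Pk_p Z hZ]
  have e3 : Pp (V + W + Z) = Z := by
    simp [hS.Pp_h V hV, hS.Pp_k W hW, hS.Pp_p Z hZ]
  rw [e1, e2, e3]
  exact ⟨hV, hW, hZ, rfl⟩

lemma dec_m (hS : SymData h k p Q Ph Pk Pp) (hm : m = k ⊔ p) (u : m) :
    Pk (u : 𝔸) ∈ k ∧ Pp (u : 𝔸) ∈ p ∧ (u : 𝔸) = Pk u + Pp u ∧ Ph (u : 𝔸) = 0 := by
  have hu : (u : 𝔸) ∈ k ⊔ p := hm ▸ u.2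
  obtain ⟨W, hW, Z, hZ, e⟩ := Submodule.mem_sup.1 hu
  have e2 : Pk (u : 𝔸) = W := by rw [← e]; simp [hS.Pk_k W hW, hS.Pk_p Z hZ]
  have e3 : Pp (u : 𝔸) = Z := by rw [← e]; simp [hS.Pp_k W hW, hS.Pp_p Z hZ]
  have e4 : Ph (u : 𝔸) = 0 := by rw [← e]; simp [hS.Ph_k W hW, hS.Ph_p Z hZ]
  rw [e2, e3, e4]
  exact ⟨hW, hZ, e.symm, rfl⟩

/-- `T x = x_p + r x_k` -/
def TT (Pk Pp : 𝔸 →L[ℝ] 𝔸) (r : ℝ) : 𝔸 →L[ℝ] 𝔸 := Pp + r • Pk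

lemma TT_apply (r : ℝ) (x : 𝔸) : TT Pk Pp r x = Pp x + r • Pk x := rfl

lemma Q_TT (hS : SymData h k p Q Ph Pk Pp) (hm : m = k ⊔ p) (r : ℝ) (x y : m) :
    Q (TT Pk Pp r x) y = Q (Pp x) (Pp y) + r * Q (Pk x) (Pk y) := by
  obtain ⟨x1, x2, x3, x4⟩ := dec_m hS hm x
  obtain ⟨y1, y2, y3, y4⟩ := dec_m hS hm y
  conv_lhs => rw [y3]
  rw [TT_apply]
  simp only [map_add, LinearMap.add_apply, map_smul, LinearMap.smul_apply, smul_eq_mul]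
  have e1 : Q (Pp (x : 𝔸)) (Pk (y : 𝔸)) = 0 := by
    rw [hS.Qsymm]; exact hS.Qkp _ y1 _ x2
  have e2 : Q (Pk (x : 𝔸)) (Pp (y : 𝔸)) = 0 := hS.Qkp _ x1 _ y2
  rw [e1, e2]; ring

lemma TT_mem (hS : SymData h k p Q Ph Pk Pp) (hm : m = k ⊔ p) (r : ℝ) (x : m) :
    TT Pk Pp r x ∈ k ⊔ p := by
  obtain ⟨x1, x2, x3, x4⟩ := dec_m hS hm x
  rw [TT_apply, add_comm]
  exact Submodule.add_mem_sup (Submodule.smul_mem _ _ x1) x2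

lemma Q_h_m (hS : SymData h k p Q Ph Pk Pp) {X Y : 𝔸} (hX : X ∈ h) (hY : Y ∈ k ⊔ p) :
    Q X Y = 0 := by
  obtain ⟨W, hW, Z, hZ, rfl⟩ := Submodule.mem_sup.1 hY
  rw [map_add, hS.Qhk X hX W hW, hS.Qhp X hX Z hZ, add_zero]

lemma Q_TT_P (hS : SymData h k p Q Ph Pk Pp) (hm : m = k ⊔ p)
    (hP : ∀ X, (P X : 𝔸) = Pk X + Pp X) (r : ℝ) (x : m) {Z : 𝔸} (hZ : Z ∈ h ⊔ k ⊔ p) :
    Q (TT Pk Pp r x) (P Z) = Q (TT Pk Pp r x) Z := by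
  obtain ⟨z1, z2, z3, z4⟩ := dec hS hZ
  conv_rhs => rw [z4]
  rw [hP, add_assoc, map_add (Q (TT Pk Pp r x)) (Ph Z)]
  rw [hS.Qsymm _ (Ph Z), Q_h_m hS z1 (TT_mem hS hm r x), zero_add]


section alg1

lemma mem_g (hm : m = k ⊔ p) (x : m) : (x : 𝔸) ∈ h ⊔ k ⊔ p := by
  have hx : (x : 𝔸) ∈ k ⊔ p := hm ▸ x.2
  rw [sup_assoc]
  exact Submodule.mem_sup_right hx

lemma lie_g (hS : SymData h k p Q Ph Pk Pp) (hm : m = k ⊔ p)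
    (hP : ∀ X, (P X : 𝔸) = Pk X + Pp X) {X Y : 𝔸} (hX : X ∈ h ⊔ k ⊔ p) (hY : Y ∈ h ⊔ k ⊔ p) :
    ⁅X, Y⁆ ∈ h ⊔ k ⊔ p := (redData_of_sym hS hm hP).lie _ hX _ hY

lemma LD1 (hS : SymData h k p Q Ph Pk Pp) (hm : m = k ⊔ p)
    (hP : ∀ X, (P X : 𝔸) = Pk X + Pp X) (hφ : ContDiffOn ℝ ∞ φ {0}ᶜ) (r t : ℝ) {u : m}
    (hu : u ≠ 0) {Z : 𝔸} (hZ : Z ∈ h ⊔ k ⊔ p) :
    D1 (LL Q Pk Pp r t φ) u (P Z) = Q (TT Pk Pp r u) Z + t * D1 φ u (P Z) := by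
  rw [LL_D1 hS hφ r t hu, ← Q_TT hS hm, Q_TT_P hS hm hP r u hZ]

lemma LD2 (hS : SymData h k p Q Ph Pk Pp) (hm : m = k ⊔ p)
    (hφ : ContDiffOn ℝ ∞ φ {0}ᶜ) (r t : ℝ) {u : m}
    (hu : u ≠ 0) (x y : m) :
    D2 (LL Q Pk Pp r t φ) u x y = Q (TT Pk Pp r x) y + t * D2 φ u x y := by
  rw [LL_D2 hS hφ r t hu, ← Q_TT hS hm]

lemma LD2' (hS : SymData h k p Q Ph Pk Pp) (hm : m = k ⊔ p)
    (hP : ∀ X, (P X : 𝔸) = Pk X + Pp X) (hφ : ContDiffOn ℝ ∞ φ {0}ᶜ) (r t : ℝ) {u : m}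
    (hu : u ≠ 0) (x : m) {Z : 𝔸} (hZ : Z ∈ h ⊔ k ⊔ p) :
    D2 (LL Q Pk Pp r t φ) u x (P Z) = Q (TT Pk Pp r x) Z + t * D2 φ u x (P Z) := by
  rw [LD2 hS hm hφ r t hu, Q_TT_P hS hm hP r x hZ]

lemma br_T_self (hS : SymData h k p Q Ph Pk Pp) (hm : m = k ⊔ p) (r : ℝ) (u : m) :
    ⁅TT Pk Pp r u, (u : 𝔸)⁆ = (1 - r) • ⁅Pp (u : 𝔸), Pk (u : 𝔸)⁆ := by
  obtain ⟨-, -, e, -⟩ := dec_m hS hm u
  rw [TT_apply]
  generalize Pp (u : 𝔸) = B at *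
  generalize Pk (u : 𝔸) = A at *
  rw [e]
  simp only [Ring.lie_def, mul_add, add_mul, smul_mul_assoc, mul_smul_comm]
  module

lemma br_T (hS : SymData h k p Q Ph Pk Pp) (hm : m = k ⊔ p) (r : ℝ) (u b : m) :
    ⁅TT Pk Pp r u, (b : 𝔸)⁆ = ⁅Pp (u : 𝔸), Pp (b : 𝔸)⁆ + ⁅Pp (u : 𝔸), Pk (b : 𝔸)⁆
      + r • ⁅Pk (u : 𝔸), Pp (b : 𝔸)⁆ + r • ⁅Pk (u : 𝔸), Pk (b : 𝔸)⁆ := by
  obtain ⟨-, -, e, -⟩ := dec_m hS hm b
  rw [TT_apply]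
  generalize Pp (b : 𝔸) = B at *
  generalize Pk (b : 𝔸) = A at *
  rw [e]
  simp only [Ring.lie_def, mul_add, add_mul, smul_mul_assoc, mul_smul_comm]
  module

lemma br_dec (hS : SymData h k p Q Ph Pk Pp) (hm : m = k ⊔ p) (u b : m) :
    ⁅(u : 𝔸), (b : 𝔸)⁆ = ⁅Pp (u : 𝔸), Pp (b : 𝔸)⁆ + ⁅Pp (u : 𝔸), Pk (b : 𝔸)⁆
      + ⁅Pk (u : 𝔸), Pp (b : 𝔸)⁆ + ⁅Pk (u : 𝔸), Pk (b : 𝔸)⁆ := by
  have := br_T hS hm 1 u b
  obtain ⟨-, -, e, -⟩ := dec_m hS hm u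
  rw [TT_apply, one_smul, one_smul, one_smul, add_comm (Pp (u : 𝔸)), ← e] at this
  exact this

/-- the vector `W` -/
def WW (Pk Pp : 𝔸 →L[ℝ] 𝔸) (r : ℝ) (u b : 𝔸) : 𝔸 :=
  r • ⁅Pk u, Pk b⁆ + (2 - r) • ⁅Pk u, Pp b⁆ + r • ⁅Pp u, Pk b⁆ + r • Pk ⁅Pp u, Pp b⁆

lemma skew (X Y : 𝔸) : ⁅X, Y⁆ = -⁅Y, X⁆ := by
  simp only [Ring.lie_def]; abel

lemma Pkp (hS : SymData h k p Q Ph Pk Pp) {X Y : 𝔸} (hX : X ∈ k) (hY : Y ∈ p) :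
    ⁅Y, X⁆ ∈ p := by
  rw [skew]; exact Submodule.neg_mem _ (hS.kp X hX Y hY)

lemma TP (hS : SymData h k p Q Ph Pk Pp) (hm : m = k ⊔ p)
    (hP : ∀ X, (P X : 𝔸) = Pk X + Pp X) (r : ℝ) (u b : m) :
    TT Pk Pp r (P ⁅(u : 𝔸), (b : 𝔸)⁆ : m) = r • ⁅Pk (u : 𝔸), Pk (b : 𝔸)⁆
      + ⁅Pk (u : 𝔸), Pp (b : 𝔸)⁆ + ⁅Pp (u : 𝔸), Pk (b : 𝔸)⁆ + r • Pk ⁅Pp (u : 𝔸), Pp (b : 𝔸)⁆ := by
  obtain ⟨u1, u2, -, -⟩ := dec_m hS hm u
  obtain ⟨b1, b2, -, -⟩ := dec_m hS hm b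
  have hpp := hS.pp _ u2 _ b2
  obtain ⟨c1, c2, c3, c4⟩ := dec hS (Submodule.mem_sup_left hpp)
  have c5 : Pp ⁅Pp (u : 𝔸), Pp (b : 𝔸)⁆ = 0 := by
    obtain ⟨Y, hY, Z, hZ, e⟩ := Submodule.mem_sup.1 hpp
    rw [← e, map_add, hS.Pp_h Y hY, hS.Pp_k Z hZ, add_zero]
  have e1 : Pk (P ⁅(u : 𝔸), (b : 𝔸)⁆ : m) = ⁅Pk (u : 𝔸), Pk (b : 𝔸)⁆
      + Pk ⁅Pp (u : 𝔸), Pp (b : 𝔸)⁆ := by
    rw [hP, br_dec hS hm u b]
    simp only [map_add, hS.Pk_k _ (hS.kk _ u1 _ b1), hS.Pk_p _ (hS.kp _ u1 _ b2),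
      hS.Pk_p _ (Pkp hS b1 u2), hS.Pp_k _ (hS.kk _ u1 _ b1), hS.Pp_p _ (hS.kp _ u1 _ b2),
      hS.Pp_p _ (Pkp hS b1 u2), c5, hS.Pk_k _ c2, add_zero, zero_add]
    abel
  have e2 : Pp (P ⁅(u : 𝔸), (b : 𝔸)⁆ : m) = ⁅Pk (u : 𝔸), Pp (b : 𝔸)⁆
      + ⁅Pp (u : 𝔸), Pk (b : 𝔸)⁆ := by
    rw [hP, br_dec hS hm u b]
    simp only [map_add, hS.Pk_k _ (hS.kk _ u1 _ b1), hS.Pk_p _ (hS.kp _ u1 _ b2),
      hS.Pk_p _ (Pkp hS b1 u2), hS.Pp_k _ (hS.kk _ u1 _ b1), hS.Pp_p _ (hS.kp _ u1 _ b2),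
      hS.Pp_p _ (Pkp hS b1 u2), c5, hS.Pp_k _ c2, add_zero, zero_add]
    abel
  rw [TT_apply, e1, e2]
  module

lemma WW_eq (hS : SymData h k p Q Ph Pk Pp) (hm : m = k ⊔ p)
    (hP : ∀ X, (P X : 𝔸) = Pk X + Pp X) (r : ℝ) (u b : m) :
    TT Pk Pp r (P ⁅(u : 𝔸), (b : 𝔸)⁆ : m) - ⁅TT Pk Pp r b, (u : 𝔸)⁆ - ⁅TT Pk Pp r u, (b : 𝔸)⁆
      = WW Pk Pp r u b := by
  rw [TP hS hm hP, br_T hS hm, br_T hS hm, WW, skew (Pp (b : 𝔸)) (Pp (u : 𝔸)),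
    skew (Pk (b : 𝔸)) (Pp (u : 𝔸)), skew (Pp (b : 𝔸)) (Pk (u : 𝔸)),
    skew (Pk (b : 𝔸)) (Pk (u : 𝔸))]
  module

end alg1

section funct

lemma Qi (hS : SymData h k p Q Ph Pk Pp) (X Y Z : 𝔸) : Q X ⁅Y, Z⁆ = Q ⁅X, Y⁆ Z :=
  (hS.Qinv X Y Z).symm

lemma eta_fun (hS : SymData h k p Q Ph Pk Pp) (hm : m = k ⊔ p)
    (hP : ∀ X, (P X : 𝔸) = Pk X + Pp X) (hφ : ContDiffOn ℝ ∞ φ {0}ᶜ) {r t : ℝ}
    (hM : MinkData h m P (LL Q Pk Pp r t φ)) {u : m} (hu : u ≠ 0) (w : m) :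
    Q (TT Pk Pp r (eta P (LL Q Pk Pp r t φ) u)) w
      + t * D2 φ u (eta P (LL Q Pk Pp r t φ) u) w
      = -(1 - r) * Q ⁅Pp (u : 𝔸), Pk (u : 𝔸)⁆ w - t * D1 φ u (P ⁅(u : 𝔸), (w : 𝔸)⁆) := by
  have h1 := eta_spec (redData_of_sym hS hm hP) hM hu w
  rw [LD2 hS hm hφ r t hu, LD1 hS hm hP hφ r t hu
    (lie_g hS hm hP (mem_g hm u) (mem_g hm w)), Qi hS, br_T_self hS hm] at h1
  rw [h1, map_smul, LinearMap.smul_apply, smul_eq_mul]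
  ring

lemma g_fun (hS : SymData h k p Q Ph Pk Pp) (hm : m = k ⊔ p)
    (hP : ∀ X, (P X : 𝔸) = Pk X + Pp X) (hφ : ContDiffOn ℝ ∞ φ {0}ᶜ) {r t : ℝ}
    (hM : MinkData h m P (LL Q Pk Pp r t φ)) {u : m} (hu : u ≠ 0) (b z : m) :
    Q (TT Pk Pp r (fderiv ℝ (eta P (LL Q Pk Pp r t φ)) u b + P ⁅(u : 𝔸), (b : 𝔸)⁆ : m)) z
      + t * D2 φ u (fderiv ℝ (eta P (LL Q Pk Pp r t φ)) u b + P ⁅(u : 𝔸), (b : 𝔸)⁆) z
      = Q (WW Pk Pp r u b) z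
        + t * (D2 φ u (P ⁅(u : 𝔸), (b : 𝔸)⁆) z - D2 φ u b (P ⁅(u : 𝔸), (z : 𝔸)⁆)
          - D1 φ u (P ⁅(b : 𝔸), (z : 𝔸)⁆) - D3 φ u b (eta P (LL Q Pk Pp r t φ) u) z) := by
  have h1 := deta_spec (redData_of_sym hS hm hP) hM hu b z
  rw [LD2 hS hm hφ r t hu, LD2' hS hm hP hφ r t hu b
    (lie_g hS hm hP (mem_g hm u) (mem_g hm z)), LD1 hS hm hP hφ r t hu
    (lie_g hS hm hP (mem_g hm b) (mem_g hm z)), Qi hS, Qi hS, LL_D3 hS hφ r t hu] at h1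
  rw [← WW_eq hS hm hP, D2_add hφ hu]
  simp only [Submodule.coe_add, map_add, map_sub, LinearMap.add_apply, LinearMap.sub_apply]
  linear_combination h1

lemma k_fun (hS : SymData h k p Q Ph Pk Pp) (hm : m = k ⊔ p)
    (hP : ∀ X, (P X : 𝔸) = Pk X + Pp X) (hφ : ContDiffOn ℝ ∞ φ {0}ᶜ) {r t : ℝ}
    (hM : MinkData h m P (LL Q Pk Pp r t φ)) {u : m} (hu : u ≠ 0) (y z : m) :
    Q (TT Pk Pp r (fderiv ℝ (eta P (LL Q Pk Pp r t φ)) u y : m)) z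
      + t * D2 φ u (fderiv ℝ (eta P (LL Q Pk Pp r t φ)) u y) z
      = - Q (⁅TT Pk Pp r y, (u : 𝔸)⁆ + ⁅TT Pk Pp r u, (y : 𝔸)⁆) z
        - t * (D2 φ u y (P ⁅(u : 𝔸), (z : 𝔸)⁆)
          + D1 φ u (P ⁅(y : 𝔸), (z : 𝔸)⁆) + D3 φ u y (eta P (LL Q Pk Pp r t φ) u) z) := by
  have h1 := deta_spec (redData_of_sym hS hm hP) hM hu y z
  rw [LD2 hS hm hφ r t hu, LD2' hS hm hP hφ r t hu y
    (lie_g hS hm hP (mem_g hm u) (mem_g hm z)), LD1 hS hm hP hφ r t hu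
    (lie_g hS hm hP (mem_g hm y) (mem_g hm z)), Qi hS, Qi hS, LL_D3 hS hφ r t hu] at h1
  simp only [map_add, LinearMap.add_apply]
  linear_combination h1

/-- the curvature form, scaled -/
lemma R_fun (hS : SymData h k p Q Ph Pk Pp) (hm : m = k ⊔ p)
    (hP : ∀ X, (P X : 𝔸) = Pk X + Pp X) (hφ : ContDiffOn ℝ ∞ φ {0}ᶜ) {r t : ℝ}
    {u : m} (hu : u ≠ 0) (b : m) (s : ℝ) {η g w κ : m}
    (hη : η = eta P (LL Q Pk Pp r t φ) u) (hw : w = P ⁅(u : 𝔸), (b : 𝔸)⁆)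
    (hg : g = fderiv ℝ (eta P (LL Q Pk Pp r t φ)) u b + P ⁅(u : 𝔸), (b : 𝔸)⁆)
    (hκ : κ = fderiv ℝ (eta P (LL Q Pk Pp r t φ)) u (eta P (LL Q Pk Pp r t φ) u)) :
    s ^ 2 * Rform P (LL Q Pk Pp r t φ) u b
      = (1 / 4) * (Q (TT Pk Pp r (s • g : m)) (s • g : m) + t * D2 φ u (s • g) (s • g))
        - (Q (TT Pk Pp r (s • w : m)) (s • w : m) + t * D2 φ u (s • w) (s • w))
        + (Q (s • ⁅TT Pk Pp r u, (b : 𝔸)⁆) (s • ⁅(u : 𝔸), (b : 𝔸)⁆)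
          + (s * t) * D1 φ u (P ⁅(b : 𝔸), s • ⁅(u : 𝔸), (b : 𝔸)⁆⁆))
        + ((1 - r) * Q ⁅Pp (b : 𝔸), s • Pk (b : 𝔸)⁆ (s • η : m)
          + (s * t) * D2 φ u b (P ⁅(b : 𝔸), ((s • η : m) : 𝔸)⁆))
        - (s * t) * D3 φ u η b (s • w)
        - (1 / 2) * ((s * t) * D4 φ u (s • η) η b b + (s * t) * D3 φ u (s • κ) b b) := by
  have hub := lie_g hS hm hP (mem_g hm u) (mem_g hm b)
  have hbub := lie_g hS hm hP (mem_g hm b) hub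
  have hbη := lie_g hS hm hP (mem_g hm b) (mem_g hm (eta P (LL Q Pk Pp r t φ) u))
  have e1 : P ⁅(b : 𝔸), s • ⁅(u : 𝔸), (b : 𝔸)⁆⁆ = s • P ⁅(b : 𝔸), ⁅(u : 𝔸), (b : 𝔸)⁆⁆ := by
    rw [← map_smul]; congr 1
    simp only [Ring.lie_def, mul_sub, sub_mul, smul_mul_assoc, mul_smul_comm, smul_sub]
  have e2 : P ⁅(b : 𝔸), ((s • η : m) : 𝔸)⁆ = s • P ⁅(b : 𝔸), (η : 𝔸)⁆ := by
    rw [← map_smul, Submodule.coe_smul]; congr 1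
    simp only [Ring.lie_def, smul_mul_assoc, mul_smul_comm, smul_sub]
  have e3 : ⁅Pp (b : 𝔸), s • Pk (b : 𝔸)⁆ = s • ⁅Pp (b : 𝔸), Pk (b : 𝔸)⁆ := by
    simp only [Ring.lie_def, smul_mul_assoc, mul_smul_comm, smul_sub]
  have e4 : (1 - r) * Q ⁅Pp (b : 𝔸), Pk (b : 𝔸)⁆ (η : m) = Q (TT Pk Pp r b) ⁅(b : 𝔸), (η : 𝔸)⁆ := by
    rw [Qi hS, br_T_self hS hm, map_smul, LinearMap.smul_apply, smul_eq_mul]
  rw [e1, e2, e3]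
  simp only [map_smul, LinearMap.smul_apply, smul_eq_mul, Submodule.coe_smul,
    D1_smul hφ hu, D2_smul hφ hu, D2_smul_right hφ hu, D3_smul hφ hu, D3_smul_right hφ hu,
    D4_smul hφ hu]
  rw [Rform, ← hg, ← hκ, ← hη, ← hw, LD2 hS hm hφ r t hu g g, LD2 hS hm hφ r t hu w w,
    LD1 hS hm hP hφ r t hu hbub, Qi hS,
    D2_symm (LL_smooth hφ r t) hu (P ⁅(b : 𝔸), (η : 𝔸)⁆) b,
    LD2' hS hm hP hφ r t hu b (hη ▸ hbη), ← e4, LL_D3 hS hφ r t hu, LL_D3 hS hφ r t hu,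
    LL_D4 hS hφ r t hu]
  ring

end funct

section limits

lemma lsmul (X Y : 𝔸) (c : ℝ) : ⁅X, c • Y⁆ = c • ⁅X, Y⁆ := by
  simp only [Ring.lie_def, smul_mul_assoc, mul_smul_comm, smul_sub]

lemma smull (X Y : 𝔸) (c : ℝ) : ⁅c • X, Y⁆ = c • ⁅X, Y⁆ := by
  simp only [Ring.lie_def, smul_mul_assoc, mul_smul_comm, smul_sub]

lemma ladd (X Y Z : 𝔸) : ⁅X, Y + Z⁆ = ⁅X, Y⁆ + ⁅X, Z⁆ := by
  simp only [Ring.lie_def, mul_add, add_mul]; abel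

lemma addl (X Y Z : 𝔸) : ⁅X + Y, Z⁆ = ⁅X, Z⁆ + ⁅Y, Z⁆ := by
  simp only [Ring.lie_def, mul_add, add_mul]; abel

lemma lzero (X : 𝔸) : ⁅X, (0 : 𝔸)⁆ = 0 := by simp [Ring.lie_def]

lemma zerol (X : 𝔸) : ⁅(0 : 𝔸), X⁆ = 0 := by simp [Ring.lie_def]

lemma Q_nonneg (hS : SymData h k p Q Ph Pk Pp) {X : 𝔸} (hX : X ∈ h ⊔ k ⊔ p) : 0 ≤ Q X X := by
  by_cases h0 : X = 0
  · simp [h0]
  · exact (hS.Qpos X hX h0).le

lemma TT_pos (hS : SymData h k p Q Ph Pk Pp) (hm : m = k ⊔ p) {r : ℝ} (hr : 0 < r) {w : m}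
    (hw : w ≠ 0) : 0 < Q (TT Pk Pp r w) w := by
  rw [Q_TT hS hm]
  obtain ⟨w1, w2, w3, -⟩ := dec_m hS hm w
  have w1' : Pk (w : 𝔸) ∈ h ⊔ k ⊔ p := Submodule.mem_sup_left (Submodule.mem_sup_right w1)
  have w2' : Pp (w : 𝔸) ∈ h ⊔ k ⊔ p := Submodule.mem_sup_right w2
  have n1 := Q_nonneg hS w1'
  have n2 := Q_nonneg hS w2'
  by_cases h1 : Pk (w : 𝔸) = 0
  · have h2 : Pp (w : 𝔸) ≠ 0 := by
      intro h2
      rw [h1, h2, add_zero] at w3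
      exact hw (Subtype.ext w3)
    have := hS.Qpos _ w2' h2
    positivity
  · have := hS.Qpos _ w1' h1
    positivity

/-- solving the linear system in the limit -/
lemma solveT (hS : SymData h k p Q Ph Pk Pp) (hm : m = k ⊔ p) (hφ : ContDiffOn ℝ ∞ φ {0}ᶜ)
    {r : ℝ} (hr : 0 < r) {t : ℕ → ℝ} {u : ℕ → m} {u₀ : m} (hun : ∀ n, u n ≠ 0) (hu₀ : u₀ ≠ 0)
    (hu : Tendsto u atTop (𝓝 u₀)) (ht : Tendsto t atTop (𝓝 0)) {X : ℕ → m} {X₀ : m}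
    (hX : ∀ w : m, Tendsto (fun n => Q (TT Pk Pp r (X n)) w + t n * D2 φ (u n) (X n) w) atTop
      (𝓝 (Q (TT Pk Pp r X₀) w))) : Tendsto X atTop (𝓝 X₀) := by
  refine solve' (E := m) (B := fun n (x y : m) => Q (TT Pk Pp r (x : 𝔸)) (y : 𝔸)
      + t n * D2 φ (u n) x y)
    (B₀ := fun (x y : m) => Q (TT Pk Pp r (x : 𝔸)) (y : 𝔸)) ?_ ?_ ?_ ?_ ?_ ?_ ?_ ?_ ?_ ?_ hX
  · intro n x x' y
    simp only [Submodule.coe_add, map_add, LinearMap.add_apply, D2_add hφ (hun n)]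
    ring
  · intro n c x y
    simp only [Submodule.coe_smul, map_smul, LinearMap.smul_apply, smul_eq_mul,
      D2_smul hφ (hun n)]
    ring
  · intro n x y y'
    simp only [Submodule.coe_add, map_add, D2_add_right hφ (hun n)]
    ring
  · intro n c x y
    simp only [Submodule.coe_smul, map_smul, smul_eq_mul, D2_smul_right hφ (hun n)]
    ring
  · intro x x' y
    simp only [Submodule.coe_add, map_add, LinearMap.add_apply]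
  · intro c x y
    simp only [Submodule.coe_smul, map_smul, LinearMap.smul_apply, smul_eq_mul]
  · intro x y y'
    simp only [Submodule.coe_add, map_add]
  · intro c x y
    simp only [Submodule.coe_smul, map_smul, smul_eq_mul]
  · intro x w
    have h1 := ht.mul (D2_tendsto hφ hu₀ hu (tendsto_const_nhds (x := x))
      (tendsto_const_nhds (x := w)))
    rw [zero_mul] at h1
    simpa using (tendsto_const_nhds (x := Q (TT Pk Pp r x) w)).add h1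
  · intro w hw
    exact TT_pos hS hm hr hw

lemma Pp_hk (hS : SymData h k p Q Ph Pk Pp) {X : 𝔸} (hX : X ∈ h ⊔ k) : Pp X = 0 := by
  obtain ⟨Y, hY, Z, hZ, rfl⟩ := Submodule.mem_sup.1 hX
  rw [map_add, hS.Pp_h Y hY, hS.Pp_k Z hZ, add_zero]

lemma dec_hk (hS : SymData h k p Q Ph Pk Pp) {X : 𝔸} (hX : X ∈ h ⊔ k) :
    Ph X ∈ h ∧ Pk X ∈ k ∧ X = Ph X + Pk X := by
  obtain ⟨h1, h2, h3, h4⟩ := dec hS (Submodule.mem_sup_left hX)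
  rw [Pp_hk hS hX, add_zero] at h4
  exact ⟨h1, h2, h4⟩

lemma Q_Pk (hS : SymData h k p Q Ph Pk Pp) (hm : m = k ⊔ p) {X : 𝔸} (hX : X ∈ h ⊔ k) (w : m) :
    Q (Pk X) w = Q X w := by
  obtain ⟨h1, h2, h3⟩ := dec_hk hS hX
  conv_rhs => rw [h3]
  rw [map_add, LinearMap.add_apply, Q_h_m hS h1 (hm ▸ w.2), zero_add]

lemma mem_k_of_perp (hS : SymData h k p Q Ph Pk Pp) {X : 𝔸} (hX : X ∈ h ⊔ k)
    (h0 : ∀ Y ∈ h, Q Y X = 0) : X ∈ k := by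
  obtain ⟨Y, hY, Z, hZ, rfl⟩ := Submodule.mem_sup.1 hX
  have h1 : Q Y (Y + Z) = 0 := h0 Y hY
  rw [map_add, hS.Qhk Y hY Z hZ, add_zero] at h1
  have hY0 : Y = 0 := by
    by_contra hne
    exact (hS.Qpos Y (Submodule.mem_sup_left (Submodule.mem_sup_left hY)) hne).ne' h1
  rw [hY0, zero_add]; exact hZ

lemma Q_P (hS : SymData h k p Q Ph Pk Pp) (hP : ∀ X, (P X : 𝔸) = Pk X + Pp X) {X Z : 𝔸}
    (hX : X ∈ k ⊔ p) (hZ : Z ∈ h ⊔ k ⊔ p) : Q X (P Z : m) = Q X Z := by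
  obtain ⟨z1, z2, z3, z4⟩ := dec hS hZ
  conv_rhs => rw [z4]
  rw [hP, add_assoc, map_add (Q X) (Ph Z), hS.Qsymm _ (Ph Z), Q_h_m hS z1 hX, zero_add]

/-- second derivative of the invariance of `φ` -/
lemma phi_inv2 (hS : SymData h k p Q Ph Pk Pp) (hm : m = k ⊔ p)
    (hP : ∀ X, (P X : 𝔸) = Pk X + Pp X) (hφ : PhiData h m P Pk Pp φ) {Y : 𝔸} (hY : Y ∈ h) {u : m}
    (hu : u ≠ 0) (z : m) : D2 φ u (P ⁅Y, (u : 𝔸)⁆) z = - D1 φ u (P ⁅Y, (z : 𝔸)⁆) := by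
  obtain ⟨t₀, ht₀, ht⟩ := LL_mink hS hm hP hφ one_pos
  have hR := redData_of_sym hS hm hP
  have h1 := inv2 hR (ht 0 (by simpa using ht₀)).1 hY hu z
  have h2 := inv2 hR (ht (t₀ / 2) (by rw [abs_of_pos (by positivity)]; linarith)).1 hY hu z
  rw [LL_D2 hS hφ.smooth _ _ hu, LL_D1 hS hφ.smooth _ _ hu] at h1 h2
  have h3 : (t₀ / 2) * (D2 φ u (P ⁅Y, (u : 𝔸)⁆) z + D1 φ u (P ⁅Y, (z : 𝔸)⁆)) = 0 := by
    linear_combination h2 - h1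
  have h4 := (mul_eq_zero.1 h3).resolve_left (by positivity)
  linarith

end limits


theorem main (hS : SymData h k p Q Ph Pk Pp) (hm : m = k ⊔ p)
    (hP : ∀ X, (P X : 𝔸) = Pk X + Pp X) (hφ : PhiData h m P Pk Pp φ) {r : ℝ} (hr : 0 < r)
    {t ε : ℕ → ℝ} {u b : ℕ → m} {u₀ v : m} {τ : ℝ} {a c z x s : 𝔸}
    (hε : ∀ n, 0 < ε n) (hε0 : Tendsto ε atTop (𝓝 0))
    (ht : Tendsto (fun n => (ε n)⁻¹ * t n) atTop (𝓝 τ)) (hu₀ : u₀ ≠ 0)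
    (hu : Tendsto u atTop (𝓝 u₀)) (hb : Tendsto b atTop (𝓝 v))
    (hup : (u₀ : 𝔸) ∈ p) (hvp : (v : 𝔸) ∈ p) (huv : ⁅(u₀ : 𝔸), (v : 𝔸)⁆ = 0)
    (ha : Tendsto (fun n => (ε n)⁻¹ • Pk (u n)) atTop (𝓝 a))
    (hc : Tendsto (fun n => (ε n)⁻¹ • Pk (b n)) atTop (𝓝 c))
    (hz : Tendsto (fun n => (ε n)⁻¹ • ⁅Pp (u n), Pp (b n)⁆) atTop (𝓝 z))
    (hx : x ∈ p) (hxφ : ∀ w : m, Q x w = D1 φ u₀ w)
    (hs : s ∈ p) (hsφ : ∀ w : m, Q s w = D2 φ u₀ v w)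
    (hun : ∀ n, u n ≠ 0) (hM : ∀ n, MinkData h m P (LL Q Pk Pp r (t n) φ)) :
    Tendsto (fun n => ((ε n)⁻¹) ^ 2 * Rform P (LL Q Pk Pp r (t n) φ) (u n) (b n)) atTop
      (𝓝 (R2 Q Ph Pk P φ r u₀ v x s τ a c z)) := by
  have hφs := hφ.smooth
  -- basic limits
  have ht0 : Tendsto t atTop (𝓝 0) := by
    have h1 := hε0.mul ht
    rw [zero_mul] at h1
    refine h1.congr fun n => ?_
    rw [← mul_assoc, mul_inv_cancel₀ (hε n).ne', one_mul]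
  have hu' : Tendsto (fun n => (u n : 𝔸)) atTop (𝓝 (u₀ : 𝔸)) :=
    (continuous_subtype_val.tendsto _).comp hu
  have hb' : Tendsto (fun n => (b n : 𝔸)) atTop (𝓝 (v : 𝔸)) :=
    (continuous_subtype_val.tendsto _).comp hb
  have hup' : Tendsto (fun n => Pp (u n : 𝔸)) atTop (𝓝 (u₀ : 𝔸)) := by
    have h1 : Tendsto (fun n => Pp (u n : 𝔸)) atTop (𝓝 (Pp (u₀ : 𝔸))) :=
      (Pp.continuous.tendsto _).comp hu'
    rwa [hS.Pp_p _ hup] at h1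
  have hbp' : Tendsto (fun n => Pp (b n : 𝔸)) atTop (𝓝 (v : 𝔸)) := by
    have h1 : Tendsto (fun n => Pp (b n : 𝔸)) atTop (𝓝 (Pp (v : 𝔸))) :=
      (Pp.continuous.tendsto _).comp hb'
    rwa [hS.Pp_p _ hvp] at h1
  have hbk' : Tendsto (fun n => Pk (b n : 𝔸)) atTop (𝓝 (0 : 𝔸)) := by
    have h1 : Tendsto (fun n => Pk (b n : 𝔸)) atTop (𝓝 (Pk (v : 𝔸))) :=
      (Pk.continuous.tendsto _).comp hb'
    rwa [hS.Pk_p _ hvp] at h1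
  -- membership
  have hkcl : IsClosed (k : Set 𝔸) := Submodule.closed_of_finiteDimensional k
  have hhkcl : IsClosed ((h ⊔ k : Submodule ℝ 𝔸) : Set 𝔸) := Submodule.closed_of_finiteDimensional _
  have hak : a ∈ k := hkcl.mem_of_tendsto ha (Eventually.of_forall fun n =>
    Submodule.smul_mem _ _ (dec_m hS hm (u n)).1)
  have hck : c ∈ k := hkcl.mem_of_tendsto hc (Eventually.of_forall fun n =>
    Submodule.smul_mem _ _ (dec_m hS hm (b n)).1)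
  have hzm : z ∈ h ⊔ k := hhkcl.mem_of_tendsto hz (Eventually.of_forall fun n =>
    Submodule.smul_mem _ _ (hS.pp _ (dec_m hS hm (u n)).2.1 _ (dec_m hS hm (b n)).2.1))
  have hpg : ∀ X ∈ p, X ∈ h ⊔ k ⊔ p := fun X hX => Submodule.mem_sup_right hX
  have hkg : ∀ X ∈ k, X ∈ h ⊔ k ⊔ p := fun X hX =>
    Submodule.mem_sup_left (Submodule.mem_sup_right hX)
  have hhg : ∀ X ∈ h, X ∈ h ⊔ k ⊔ p := fun X hX =>
    Submodule.mem_sup_left (Submodule.mem_sup_left hX)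
  have hD1 : ∀ Y ∈ h ⊔ k ⊔ p, ∀ Z ∈ h ⊔ k ⊔ p, D1 φ u₀ (P ⁅Y, Z⁆) = Q ⁅x, Y⁆ Z := by
    intro Y hY Z hZ
    rw [← hxφ, Q_P hS hP (Submodule.mem_sup_right hx) (lie_g hS hm hP hY hZ), Qi hS]
  have hD2 : ∀ Y ∈ h ⊔ k ⊔ p, ∀ Z ∈ h ⊔ k ⊔ p, D2 φ u₀ v (P ⁅Y, Z⁆) = Q ⁅s, Y⁆ Z := by
    intro Y hY Z hZ
    rw [← hsφ, Q_P hS hP (Submodule.mem_sup_right hs) (lie_g hS hm hP hY hZ), Qi hS]
  have hxu : ⁅x, (u₀ : 𝔸)⁆ ∈ k := by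
    refine mem_k_of_perp hS (hS.pp _ hx _ hup) fun Y hY => ?_
    have h1 := hφ.inv Y hY u₀ hu₀
    rw [hD1 Y (hhg Y hY) _ (hpg _ hup)] at h1
    rw [Qi hS, skew, map_neg, LinearMap.neg_apply, h1, neg_zero]
  have hmp : ∀ X ∈ p, X ∈ m := fun X hX => hm ▸ Submodule.mem_sup_right hX
  have hmk : ∀ X ∈ k, X ∈ m := fun X hX => hm ▸ Submodule.mem_sup_left hX
  have hau : ⁅a, (u₀ : 𝔸)⁆ ∈ p := hS.kp _ hak _ hup
  have hav : ⁅a, (v : 𝔸)⁆ ∈ p := hS.kp _ hak _ hvp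
  have huc : ⁅(u₀ : 𝔸), c⁆ ∈ p := Pkp hS hck hup
  -- the vector `η'`
  obtain ⟨η', hη'⟩ : ∃ η' : m, (η' : 𝔸) = (1 - r) • ⁅a, (u₀ : 𝔸)⁆ - (τ / r) • ⁅x, (u₀ : 𝔸)⁆ :=
    ⟨⟨_, m.sub_mem (m.smul_mem _ (hmp _ hau)) (m.smul_mem _ (hmk _ hxu))⟩, rfl⟩
  have hTη : TT Pk Pp r η' = (1 - r) • ⁅a, (u₀ : 𝔸)⁆ - τ • ⁅x, (u₀ : 𝔸)⁆ := by
    rw [TT_apply, hη']
    simp only [map_sub, map_smul, hS.Pp_p _ hau, hS.Pp_k _ hxu, hS.Pk_p _ hau, hS.Pk_k _ hxu]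
    rw [smul_zero, smul_zero, zero_sub, sub_zero, smul_neg, smul_smul, mul_div_cancel₀ _ hr.ne']
    abel
  have hH : Tendsto (fun n => (ε n)⁻¹ • eta P (LL Q Pk Pp r (t n) φ) (u n)) atTop (𝓝 η') := by
    refine solveT hS hm hφs hr hun hu₀ hu ht0 fun w => ?_
    have e0 : Q (TT Pk Pp r η') w = -(1 - r) * Q ⁅(u₀ : 𝔸), a⁆ w
        - τ * D1 φ u₀ (P ⁅(u₀ : 𝔸), (w : 𝔸)⁆) := by
      rw [hD1 _ (hpg _ hup) _ (mem_g hm w), hTη, skew (u₀ : 𝔸) a]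
      simp only [map_sub, map_smul, map_neg, LinearMap.sub_apply, LinearMap.smul_apply,
        LinearMap.neg_apply, smul_eq_mul]
      ring
    rw [e0]
    have l1 := ((Q_tendsto Q (br_tendsto hup' ha) (tendsto_const_nhds (x := (w : 𝔸)))).const_mul
      (-(1 - r))).sub (ht.mul (D1_tendsto hφs hu₀ hu ((P.continuous.tendsto _).comp
        (br_tendsto hu' (tendsto_const_nhds (x := (w : 𝔸)))))))
    refine l1.congr fun n => ?_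
    have h1 := eta_fun hS hm hP hφs (hM n) (hun n) w
    simp only [Function.comp_apply, lsmul, Submodule.coe_smul, map_smul, LinearMap.smul_apply,
      smul_eq_mul, D2_smul hφs (hun n)]
    linear_combination -(ε n)⁻¹ * h1
  have hη0 : Tendsto (fun n => eta P (LL Q Pk Pp r (t n) φ) (u n)) atTop (𝓝 0) := by
    have h1 := hε0.smul hH
    rw [zero_smul] at h1
    refine h1.congr fun n => ?_
    rw [smul_smul, mul_inv_cancel₀ (hε n).ne', one_smul]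
  -- brackets
  have kbb : Tendsto (fun n => (ε n)⁻¹ • ⁅Pk (u n : 𝔸), Pk (b n : 𝔸)⁆) atTop (𝓝 0) := by
    have h1 := br_tendsto ha hbk'
    rw [lzero] at h1
    exact h1.congr fun n => smull _ _ _
  have kbp : Tendsto (fun n => (ε n)⁻¹ • ⁅Pk (u n : 𝔸), Pp (b n : 𝔸)⁆) atTop
      (𝓝 ⁅a, (v : 𝔸)⁆) := (br_tendsto ha hbp').congr fun n => smull _ _ _
  have pbk : Tendsto (fun n => (ε n)⁻¹ • ⁅Pp (u n : 𝔸), Pk (b n : 𝔸)⁆) atTop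
      (𝓝 ⁅(u₀ : 𝔸), c⁆) := (br_tendsto hup' hc).congr fun n => lsmul _ _ _
  have hZ : Tendsto (fun n => (ε n)⁻¹ • ⁅(u n : 𝔸), (b n : 𝔸)⁆) atTop
      (𝓝 (z + ⁅(u₀ : 𝔸), c⁆ + ⁅a, (v : 𝔸)⁆)) := by
    have h1 := ((hz.add pbk).add kbp).add kbb
    rw [add_zero] at h1
    refine h1.congr fun n => ?_
    rw [br_dec hS hm (u n) (b n), smul_add, smul_add, smul_add]
  have hY : Tendsto (fun n => (ε n)⁻¹ • ⁅TT Pk Pp r (u n), (b n : 𝔸)⁆) atTop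
      (𝓝 (z + ⁅(u₀ : 𝔸), c⁆ + r • ⁅a, (v : 𝔸)⁆)) := by
    have h1 := ((hz.add pbk).add (kbp.const_smul r)).add (kbb.const_smul r)
    rw [smul_zero, add_zero] at h1
    refine h1.congr fun n => ?_
    rw [br_T hS hm r (u n) (b n), smul_add, smul_add, smul_add, smul_comm r, smul_comm r]
  have hW : Tendsto (fun n => (ε n)⁻¹ • WW Pk Pp r (u n) (b n)) atTop
      (𝓝 ((2 - r) • ⁅a, (v : 𝔸)⁆ + r • ⁅(u₀ : 𝔸), c⁆ + r • Pk z)) := by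
    have h1 := (((kbb.const_smul r).add (kbp.const_smul (2 - r))).add (pbk.const_smul r)).add
      (((Pk.continuous.tendsto _).comp hz).const_smul r)
    rw [smul_zero, zero_add] at h1
    refine h1.congr fun n => ?_
    rw [WW, smul_add, smul_add, smul_add, smul_comm r, smul_comm (2 - r), smul_comm r,
      Function.comp_apply, map_smul, smul_comm r]
  have hw : Tendsto (fun n => (ε n)⁻¹ • P ⁅(u n : 𝔸), (b n : 𝔸)⁆) atTop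
      (𝓝 (P (z + ⁅(u₀ : 𝔸), c⁆ + ⁅a, (v : 𝔸)⁆))) :=
    ((P.continuous.tendsto _).comp hZ).congr fun n => map_smul _ _ _
  -- `α`, `β`
  set α : 𝔸 := ⁅x, (v : 𝔸)⁆ with hα
  set β : 𝔸 := ⁅(u₀ : 𝔸), s⁆ with hβ
  set U : 𝔸 := ⁅a, (v : 𝔸)⁆ with hU
  set V : 𝔸 := ⁅(u₀ : 𝔸), c⁆ with hV
  have hαm : α ∈ h ⊔ k := hS.pp _ hx _ hvp
  have hβm : β ∈ h ⊔ k := hS.pp _ hup _ hs
  have hPk : ∀ X ∈ h ⊔ k, Pk X ∈ k := fun X hX => (dec hS (Submodule.mem_sup_left hX)).2.1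
  obtain ⟨g', hg'⟩ : ∃ g' : m, (g' : 𝔸) = (2 - r) • U + r • V + (Pk z + (τ / r) • Pk (β - α)) :=
    ⟨⟨_, m.add_mem (m.add_mem (m.smul_mem _ (hmp _ hav)) (m.smul_mem _ (hmp _ huc)))
      (m.add_mem (hmk _ (hPk _ hzm)) (m.smul_mem _ (hmk _ (hPk _ (sub_mem hβm hαm)))))⟩, rfl⟩
  have hTg : TT Pk Pp r g' = (2 - r) • U + r • V + (r • Pk z + τ • Pk (β - α)) := by
    rw [TT_apply, hg']
    simp only [map_add, map_smul, hS.Pp_p _ hav, hS.Pp_p _ huc, hS.Pp_k _ (hPk _ hzm),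
      hS.Pp_k _ (hPk _ (sub_mem hβm hαm)), hS.Pk_p _ hav, hS.Pk_p _ huc, hS.Pk_k _ (hPk _ hzm),
      hS.Pk_k _ (hPk _ (sub_mem hβm hαm))]
    simp only [smul_zero, zero_add, add_zero, smul_add, smul_smul, mul_div_cancel₀ _ hr.ne']
  have hG : Tendsto (fun n => (ε n)⁻¹ • (fderiv ℝ (eta P (LL Q Pk Pp r (t n) φ)) (u n) (b n)
      + P ⁅(u n : 𝔸), (b n : 𝔸)⁆)) atTop (𝓝 g') := by
    refine solveT hS hm hφs hr hun hu₀ hu ht0 fun w => ?_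
    have e0 : Q (TT Pk Pp r g') w = Q ((2 - r) • U + r • V + r • Pk z) w
        + τ * (D2 φ u₀ (P ⁅(u₀ : 𝔸), (v : 𝔸)⁆) w - D2 φ u₀ v (P ⁅(u₀ : 𝔸), (w : 𝔸)⁆)
          - D1 φ u₀ (P ⁅(v : 𝔸), (w : 𝔸)⁆) - D3 φ u₀ v 0 w) := by
      have e1 : Q (Pk (β - α)) w = Q β w - Q α w := by
        rw [Q_Pk hS hm (sub_mem hβm hαm), map_sub, LinearMap.sub_apply]
      have e2 : D2 φ u₀ (P ⁅(u₀ : 𝔸), (v : 𝔸)⁆) w = 0 := by
        rw [huv, map_zero]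
        have := D2_smul hφs hu₀ 0 0 w
        rwa [zero_smul, zero_mul] at this
      have e3 : D3 φ u₀ v 0 w = 0 := by
        have := D3_smul_mid hφs hu₀ 0 v 0 w
        rwa [zero_smul, zero_mul] at this
      have e4 : ⁅s, (u₀ : 𝔸)⁆ = -β := by rw [hβ, ← skew]
      rw [e2, e3, hD2 _ (hpg _ hup) _ (mem_g hm w), hD1 _ (hpg _ hvp) _ (mem_g hm w), hTg, e4,
        ← hα, map_add, map_add _ (r • Pk z), map_add _ _ (r • Pk z)]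
      simp only [LinearMap.add_apply, map_smul, LinearMap.smul_apply, smul_eq_mul, e1, map_neg,
        LinearMap.neg_apply]
      ring
    rw [e0]
    have hPw : ∀ {y : ℕ → 𝔸} {y₀ : 𝔸}, Tendsto y atTop (𝓝 y₀) →
        Tendsto (fun n => P ⁅y n, (w : 𝔸)⁆) atTop (𝓝 (P ⁅y₀, (w : 𝔸)⁆)) := fun hy =>
      (P.continuous.tendsto _).comp (br_tendsto hy (tendsto_const_nhds (x := (w : 𝔸))))
    have l1 := (Q_tendsto Q hW (tendsto_const_nhds (x := (w : 𝔸)))).add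
      (ht.mul ((((D2_tendsto hφs hu₀ hu ((P.continuous.tendsto _).comp (br_tendsto hu' hb'))
        (tendsto_const_nhds (x := w))).sub (D2_tendsto hφs hu₀ hu hb (hPw hu'))).sub
        (D1_tendsto hφs hu₀ hu (hPw hb'))).sub (D3_tendsto hφs hu₀ hu hb hη0
          (tendsto_const_nhds (x := w)))))
    refine l1.congr fun n => ?_
    have h1 := g_fun hS hm hP hφs (hM n) (hun n) (b n) w
    rw [Submodule.coe_smul, map_smul, map_smul, LinearMap.smul_apply, smul_eq_mul,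
      map_smul, LinearMap.smul_apply, smul_eq_mul, D2_smul hφs (hun n), Function.comp_apply]
    linear_combination -(ε n)⁻¹ * h1
  -- the vector `κ'`
  have hxuu : ⁅⁅x, (u₀ : 𝔸)⁆, (u₀ : 𝔸)⁆ ∈ p := hS.kp _ hxu _ hup
  obtain ⟨κ', hκ'⟩ : ∃ κ' : m, (κ' : 𝔸) = (-(τ * (1 - r) / r)) • ⁅⁅x, (u₀ : 𝔸)⁆, (u₀ : 𝔸)⁆ :=
    ⟨⟨_, m.smul_mem _ (hmp _ hxuu)⟩, rfl⟩
  have hTκ : TT Pk Pp r κ' = (-(τ * (1 - r) / r)) • ⁅⁅x, (u₀ : 𝔸)⁆, (u₀ : 𝔸)⁆ := by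
    rw [TT_apply, hκ', map_smul, map_smul, hS.Pp_p _ hxuu, hS.Pk_p _ hxuu, smul_zero, smul_zero,
      add_zero]
  have hTu₀ : TT Pk Pp r u₀ = (u₀ : 𝔸) := by
    rw [TT_apply, hS.Pp_p _ hup, hS.Pk_p _ hup, smul_zero, add_zero]
  have hK : Tendsto (fun n => (ε n)⁻¹ • (fderiv ℝ (eta P (LL Q Pk Pp r (t n) φ)) (u n)
      (eta P (LL Q Pk Pp r (t n) φ) (u n)))) atTop (𝓝 κ') := by
    refine solveT hS hm hφs hr hun hu₀ hu ht0 fun w => ?_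
    have e0 : Q (TT Pk Pp r κ') w = - Q (⁅TT Pk Pp r η', (u₀ : 𝔸)⁆ + ⁅TT Pk Pp r u₀, (η' : 𝔸)⁆) w
        - τ * (D2 φ u₀ 0 (P ⁅(u₀ : 𝔸), (w : 𝔸)⁆)
          + D1 φ u₀ (P ⁅((0 : m) : 𝔸), (w : 𝔸)⁆) + D3 φ u₀ 0 0 w) := by
      have e1 : D2 φ u₀ 0 (P ⁅(u₀ : 𝔸), (w : 𝔸)⁆) = 0 := by
        have := D2_smul hφs hu₀ 0 0 (P ⁅(u₀ : 𝔸), (w : 𝔸)⁆)
        rwa [zero_smul, zero_mul] at this
      have e2 : D1 φ u₀ (P ⁅((0 : m) : 𝔸), (w : 𝔸)⁆) = 0 := by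
        rw [Submodule.coe_zero, zerol, map_zero]
        have := D1_smul hφs hu₀ 0 (0 : m)
        rwa [zero_smul, zero_mul] at this
      have e3 : D3 φ u₀ 0 0 w = 0 := by
        have := D3_smul hφs hu₀ 0 0 0 w
        rwa [zero_smul, zero_mul] at this
      have e4 : ⁅TT Pk Pp r η', (u₀ : 𝔸)⁆ + ⁅TT Pk Pp r u₀, (η' : 𝔸)⁆
          = (τ * (1 - r) / r) • ⁅⁅x, (u₀ : 𝔸)⁆, (u₀ : 𝔸)⁆ := by
        rw [hTu₀, skew (u₀ : 𝔸) (η' : 𝔸), ← smull, ← sub_eq_add_neg]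
        have e5 : TT Pk Pp r η' = (η' : 𝔸) + (τ * (1 - r) / r) • ⁅x, (u₀ : 𝔸)⁆ := by
          rw [hTη, hη']
          have : τ * (1 - r) / r = τ / r - τ := by field_simp
          rw [this]
          module
        rw [e5, addl]; abel
      rw [e1, e2, e3, e4, hTκ]
      simp only [neg_smul, map_neg, LinearMap.neg_apply]
      ring
    rw [e0]
    have hH' : Tendsto (fun n => (((ε n)⁻¹ • eta P (LL Q Pk Pp r (t n) φ) (u n) : m) : 𝔸)) atTop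
        (𝓝 (η' : 𝔸)) := (continuous_subtype_val.tendsto _).comp hH
    have hTc : ∀ {y : ℕ → 𝔸} {y₀ : 𝔸}, Tendsto y atTop (𝓝 y₀) →
        Tendsto (fun n => TT Pk Pp r (y n)) atTop (𝓝 (TT Pk Pp r y₀)) := fun hy =>
      ((TT Pk Pp r).continuous.tendsto _).comp hy
    have hη0' : Tendsto (fun n => (eta P (LL Q Pk Pp r (t n) φ) (u n) : 𝔸)) atTop
        (𝓝 ((0 : m) : 𝔸)) := (continuous_subtype_val.tendsto _).comp hη0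
    have hPw : ∀ {y : ℕ → 𝔸} {y₀ : 𝔸}, Tendsto y atTop (𝓝 y₀) →
        Tendsto (fun n => P ⁅y n, (w : 𝔸)⁆) atTop (𝓝 (P ⁅y₀, (w : 𝔸)⁆)) := fun hy =>
      (P.continuous.tendsto _).comp (br_tendsto hy (tendsto_const_nhds (x := (w : 𝔸))))
    have l1 := (Q_tendsto Q ((br_tendsto (hTc hH') hu').add (br_tendsto (hTc hu') hH'))
      (tendsto_const_nhds (x := (w : 𝔸)))).neg.sub
      (ht.mul (((D2_tendsto hφs hu₀ hu hη0 (hPw hu')).add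
        (D1_tendsto hφs hu₀ hu (hPw hη0'))).add (D3_tendsto hφs hu₀ hu hη0 hη0
          (tendsto_const_nhds (x := w)))))
    refine l1.congr fun n => ?_
    have h1 := k_fun hS hm hP hφs (hM n) (hun n) (eta P (LL Q Pk Pp r (t n) φ) (u n)) w
    simp only [Submodule.coe_smul, map_smul, LinearMap.smul_apply, smul_eq_mul, lsmul, smull,
      ← smul_add, D2_smul hφs (hun n)]
    linear_combination -(ε n)⁻¹ * h1
  -- the limit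
  have hL : Tendsto (fun n => ((ε n)⁻¹) ^ 2 * Rform P (LL Q Pk Pp r (t n) φ) (u n) (b n)) atTop
      (𝓝 ((1 / 4) * (Q (TT Pk Pp r g') g' + 0 * D2 φ u₀ g' g')
        - (Q (TT Pk Pp r (P (z + V + U) : m)) (P (z + V + U) : m)
          + 0 * D2 φ u₀ (P (z + V + U)) (P (z + V + U)))
        + (Q (z + V + r • U) (z + V + U) + τ * D1 φ u₀ (P ⁅(v : 𝔸), z + V + U⁆))
        + ((1 - r) * Q ⁅(v : 𝔸), c⁆ η' + τ * D2 φ u₀ v (P ⁅(v : 𝔸), (η' : 𝔸)⁆))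
        - τ * D3 φ u₀ 0 v (P (z + V + U))
        - (1 / 2) * (τ * D4 φ u₀ η' 0 v v + τ * D3 φ u₀ κ' v v))) := by
    have cs : ∀ {y : ℕ → m} {y₀ : m}, Tendsto y atTop (𝓝 y₀) →
        Tendsto (fun n => (y n : 𝔸)) atTop (𝓝 (y₀ : 𝔸)) := fun hy =>
      (continuous_subtype_val.tendsto _).comp hy
    have hTc : ∀ {y : ℕ → 𝔸} {y₀ : 𝔸}, Tendsto y atTop (𝓝 y₀) →
        Tendsto (fun n => TT Pk Pp r (y n)) atTop (𝓝 (TT Pk Pp r y₀)) := fun hy =>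
      ((TT Pk Pp r).continuous.tendsto _).comp hy
    have hPc : ∀ {y : ℕ → 𝔸} {y₀ : 𝔸}, Tendsto y atTop (𝓝 y₀) →
        Tendsto (fun n => P (y n)) atTop (𝓝 (P y₀)) := fun hy =>
      (P.continuous.tendsto _).comp hy
    have l1 := ((((((Q_tendsto Q (hTc (cs hG)) (cs hG)).add
        (ht0.mul (D2_tendsto hφs hu₀ hu hG hG))).const_mul (1 / 4)).sub
        ((Q_tendsto Q (hTc (cs hw)) (cs hw)).add (ht0.mul (D2_tendsto hφs hu₀ hu hw hw)))).add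
        ((Q_tendsto Q hY hZ).add (ht.mul (D1_tendsto hφs hu₀ hu (hPc (br_tendsto hb' hZ)))))).add
        (((Q_tendsto Q (br_tendsto hbp' hc) (cs hH)).const_mul (1 - r)).add
          (ht.mul (D2_tendsto hφs hu₀ hu hb (hPc (br_tendsto hb' (cs hH))))))).sub
        (ht.mul (D3_tendsto hφs hu₀ hu hη0 hb hw))
    have l2 := l1.sub (((ht.mul (D4_tendsto hφs hu₀ hu hH hη0 hb hb)).add
        (ht.mul (D3_tendsto hφs hu₀ hu hK hb hb))).const_mul (1 / 2))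
    refine l2.congr fun n => ?_
    exact (R_fun hS hm hP hφs (hun n) (b n) ((ε n)⁻¹) rfl rfl rfl rfl).symm
  convert hL using 2
  -- decompositions
  obtain ⟨z1, z2, z3⟩ := dec_hk hS hzm
  obtain ⟨α1, α2, α3⟩ := dec_hk hS hαm
  obtain ⟨β1, β2, β3⟩ := dec_hk hS hβm
  have okp : ∀ A ∈ k, ∀ B ∈ p, Q A B = 0 := hS.Qkp
  have opk : ∀ A ∈ p, ∀ B ∈ k, Q A B = 0 := fun A hA B hB => by
    rw [hS.Qsymm]; exact hS.Qkp B hB A hA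
  have ohp : ∀ A ∈ h, ∀ B ∈ p, Q A B = 0 := hS.Qhp
  have oph : ∀ A ∈ p, ∀ B ∈ h, Q A B = 0 := fun A hA B hB => by
    rw [hS.Qsymm]; exact hS.Qhp B hB A hA
  have ohk : ∀ A ∈ h, ∀ B ∈ k, Q A B = 0 := hS.Qhk
  have okh : ∀ A ∈ k, ∀ B ∈ h, Q A B = 0 := fun A hA B hB => by
    rw [hS.Qsymm]; exact hS.Qhk B hB A hA
  have hVU : Q V U = Q U V := hS.Qsymm _ _
  have Qhk' : ∀ A ∈ h ⊔ k, ∀ B ∈ h ⊔ k, Q A B = Q (Ph A) (Ph B) + Q (Pk A) (Pk B) := by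
    intro A hA B hB
    obtain ⟨a1, a2, a3⟩ := dec_hk hS hA
    obtain ⟨b1, b2, b3⟩ := dec_hk hS hB
    conv_lhs => rw [a3, b3]
    simp only [map_add, LinearMap.add_apply, ohk _ a1 _ b2, okh _ a2 _ b1]
    ring
  have Qhkp : ∀ A ∈ h ⊔ k, ∀ B ∈ p, Q A B = 0 := by
    intro A hA B hB
    obtain ⟨a1, a2, a3⟩ := dec_hk hS hA
    rw [a3, map_add, LinearMap.add_apply, ohp _ a1 _ hB, okp _ a2 _ hB, add_zero]
  have Qphk : ∀ A ∈ p, ∀ B ∈ h ⊔ k, Q A B = 0 := by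
    intro A hA B hB
    rw [hS.Qsymm]; exact Qhkp B hB A hA
  -- `α_h = β_h`
  have hαβ : Ph α = Ph β := by
    have h1 : Ph α - Ph β ∈ h := sub_mem α1 β1
    by_contra hne
    have h2 := hS.Qpos _ (hhg _ h1) (sub_ne_zero.2 hne)
    have h3 : ∀ Y ∈ h, Q Y α = Q Y β := by
      intro Y hY
      have h4 := phi_inv2 hS hm hP hφ hY hu₀ v
      rw [D2_symm hφs hu₀, hD2 _ (hhg _ hY) _ (hpg _ hup), hD1 _ (hhg _ hY) _ (hpg _ hvp),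
        hS.Qinv, hS.Qinv] at h4
      rw [hα, hβ, Qi hS, Qi hS, skew Y x, map_neg, LinearMap.neg_apply, hS.Qinv,
        hS.Qsymm ⁅Y, (u₀ : 𝔸)⁆ s, h4]
    have h5 : ∀ Y ∈ h, Q Y (Ph α) = Q Y (Ph β) := by
      intro Y hY
      have h6 := h3 Y hY
      rw [α3, β3, map_add, map_add, ohk Y hY _ α2, ohk Y hY _ β2, add_zero, add_zero] at h6
      exact h6
    rw [map_sub (Q (Ph α - Ph β)), h5 _ h1, sub_self] at h2
    exact lt_irrefl _ h2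
  have J1 : Q ⁅(v : 𝔸), c⁆ ⁅a, (u₀ : 𝔸)⁆ = Q U V := by
    have j : ⁅⁅(v : 𝔸), c⁆, a⁆ = -⁅⁅c, a⁆, (v : 𝔸)⁆ + ⁅⁅(v : 𝔸), a⁆, c⁆ := by
      simp only [Ring.lie_def]; noncomm_ring
    rw [Qi hS, j, map_add, map_neg, LinearMap.add_apply, LinearMap.neg_apply,
      hS.Qinv ⁅c, a⁆, hS.Qinv ⁅(v : 𝔸), a⁆, skew (v : 𝔸) (u₀ : 𝔸), huv, neg_zero, map_zero,
      neg_zero, zero_add, skew (v : 𝔸) a, skew c (u₀ : 𝔸), map_neg, map_neg,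
      LinearMap.neg_apply, neg_neg]
  have J2 : Q ⁅s, (v : 𝔸)⁆ ⁅x, (u₀ : 𝔸)⁆ = - Q β α := by
    have j : ⁅⁅x, (u₀ : 𝔸)⁆, s⁆ = -⁅⁅(u₀ : 𝔸), s⁆, x⁆ - ⁅⁅s, x⁆, (u₀ : 𝔸)⁆ := by
      simp only [Ring.lie_def]; noncomm_ring
    rw [hS.Qsymm, Qi hS, j, map_sub, map_neg, LinearMap.sub_apply, LinearMap.neg_apply,
      hS.Qinv ⁅s, x⁆, huv, map_zero, sub_zero, hS.Qinv]
  have T1 : Q (TT Pk Pp r g') g' = (2 - r) ^ 2 * Q U U + 2 * r * (2 - r) * Q U V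
      + r ^ 2 * Q V V + r * Q (Pk z) (Pk z) + 2 * τ * Q (Pk z) (Pk β - Pk α)
      + τ ^ 2 / r * Q (Pk β - Pk α) (Pk β - Pk α) := by
    rw [hTg, hg', map_sub]
    have hγ : Pk β - Pk α ∈ k := sub_mem β2 α2
    generalize Pk β - Pk α = γ at hγ
    simp only [map_add, map_smul, LinearMap.add_apply, LinearMap.smul_apply, smul_eq_mul,
      okp _ z2 _ hav, okp _ z2 _ huc, opk _ hav _ z2, opk _ huc _ z2, okp _ hγ _ hav,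
      okp _ hγ _ huc, opk _ hav _ hγ, opk _ huc _ hγ, hVU, hS.Qsymm γ (Pk z)]
    field_simp
    ring
  have hPz : (P (z + V + U) : 𝔸) = Pk z + V + U := by
    rw [hP]
    simp only [map_add, hS.Pk_p _ huc, hS.Pk_p _ hav, Pp_hk hS hzm, hS.Pp_p _ huc, hS.Pp_p _ hav]
    abel
  have T2 : Q (TT Pk Pp r (P (z + V + U) : m)) (P (z + V + U) : m)
      = r * Q (Pk z) (Pk z) + Q U U + 2 * Q U V + Q V V := by
    rw [TT_apply, hPz]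
    simp only [map_add, map_smul, hS.Pk_p _ huc, hS.Pk_p _ hav, hS.Pp_p _ huc, hS.Pp_p _ hav,
      hS.Pk_k _ z2, hS.Pp_k _ z2, LinearMap.add_apply, LinearMap.smul_apply, smul_eq_mul,
      okp _ z2 _ hav, okp _ z2 _ huc, opk _ hav _ z2, opk _ huc _ z2, hVU, map_zero,
      LinearMap.zero_apply]
    ring
  have T3 : Q (z + V + r • U) (z + V + U) = Q (Ph z) (Ph z) + Q (Pk z) (Pk z)
      + Q V V + (1 + r) * Q U V + r * Q U U := by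
    rw [← Qhk' z hzm z hzm]
    simp only [map_add, map_smul, LinearMap.add_apply, LinearMap.smul_apply, smul_eq_mul,
      Qhkp _ hzm _ hav, Qhkp _ hzm _ huc, Qphk _ hav _ hzm, Qphk _ huc _ hzm, hVU]
    ring
  have T4 : D1 φ u₀ (P ⁅(v : 𝔸), z + V + U⁆) = Q (Ph α) (Ph z) + Q (Pk α) (Pk z) := by
    rw [hD1 _ (hpg _ hvp) _ (add_mem (add_mem (Submodule.mem_sup_left hzm) (hpg _ huc))
      (hpg _ hav)), ← hα, ← Qhk' α hαm z hzm]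
    simp only [map_add, Qhkp _ hαm _ hav, Qhkp _ hαm _ huc, add_zero]
  have T5 : Q ⁅(v : 𝔸), c⁆ η' = (1 - r) * Q U V := by
    have hvc : ⁅(v : 𝔸), c⁆ ∈ p := Pkp hS hck hvp
    rw [hη', map_sub, map_smul, map_smul, opk _ hvc _ hxu, J1, smul_eq_mul, smul_zero, sub_zero]
  have T6 : D2 φ u₀ v (P ⁅(v : 𝔸), (η' : 𝔸)⁆)
      = τ / r * (Q (Ph β) (Ph α) + Q (Pk β) (Pk α)) := by
    rw [hD2 _ (hpg _ hvp) _ (mem_g hm η'), ← Qhk' β hβm α hαm, hη', map_sub, map_smul, map_smul,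
      Qhkp _ (hS.pp _ hs _ hvp) _ hau, J2, smul_zero, smul_eq_mul]
    ring
  have T7 : D3 φ u₀ κ' v v = -(τ * (1 - r) / r)
      * D3 φ u₀ (P ⁅⁅x, (u₀ : 𝔸)⁆, (u₀ : 𝔸)⁆) v v := by
    have h1 : κ' = (-(τ * (1 - r) / r)) • P ⁅⁅x, (u₀ : 𝔸)⁆, (u₀ : 𝔸)⁆ := by
      refine Subtype.ext ?_
      rw [hκ', Submodule.coe_smul, hP, hS.Pk_p _ hxuu, hS.Pp_p _ hxuu, zero_add]
    rw [h1, D3_smul hφs hu₀]
  have T8 : D3 φ u₀ 0 v (P (z + V + U)) = 0 := by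
    have := D3_smul hφs hu₀ 0 0 v (P (z + V + U))
    rwa [zero_smul, zero_mul] at this
  have T9 : D4 φ u₀ η' 0 v v = 0 := by
    have := D4_smul_2 hφs hu₀ 0 η' 0 v v
    rwa [zero_smul, zero_mul] at this
  rw [R2, T1, T2, T3, T4, T5, T6, T7, T8, T9, ← hα, ← hβ, ← hU, ← hV, hαβ]
  simp only [map_add, map_sub, LinearMap.add_apply, LinearMap.sub_apply, hVU,
    hS.Qsymm (Pk β) (Pk z), hS.Qsymm (Pk α) (Pk z), hS.Qsymm (Pk β) (Pk α)]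
  field_simp
  ring

end Lim5

variable {𝔸 : Type*} [NormedRing 𝔸] [NormedAlgebra ℝ 𝔸] [FiniteDimensional ℝ 𝔸]
variable {h k p m : Submodule ℝ 𝔸} {P : 𝔸 →L[ℝ] m} {φ : m → ℝ}
variable {Q : 𝔸 →ₗ[ℝ] 𝔸 →ₗ[ℝ] ℝ} {Ph Pk Pp : 𝔸 →L[ℝ] 𝔸}

/-- scaled limit of the curvature form at a commuting pair of `𝔭` -/
theorem Rform_limit2 (hS : SymData h k p Q Ph Pk Pp) (hm : m = k ⊔ p)
    (hP : ∀ X, (P X : 𝔸) = Pk X + Pp X) (hφ : PhiData h m P Pk Pp φ) {r : ℝ} (hr : 0 < r)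
    {t ε : ℕ → ℝ} {u b : ℕ → m} {u₀ v : m} {τ : ℝ} {a c z x s : 𝔸}
    (hε : ∀ n, 0 < ε n) (hε0 : Tendsto ε atTop (𝓝 0))
    (ht : Tendsto (fun n => (ε n)⁻¹ * t n) atTop (𝓝 τ)) (hu₀ : u₀ ≠ 0)
    (hu : Tendsto u atTop (𝓝 u₀)) (hb : Tendsto b atTop (𝓝 v))
    (hup : (u₀ : 𝔸) ∈ p) (hvp : (v : 𝔸) ∈ p) (huv : ⁅(u₀ : 𝔸), (v : 𝔸)⁆ = 0)
    (ha : Tendsto (fun n => (ε n)⁻¹ • Pk (u n)) atTop (𝓝 a))
    (hc : Tendsto (fun n => (ε n)⁻¹ • Pk (b n)) atTop (𝓝 c))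
    (hz : Tendsto (fun n => (ε n)⁻¹ • ⁅Pp (u n), Pp (b n)⁆) atTop (𝓝 z))
    (hx : x ∈ p) (hxφ : ∀ w : m, Q x w = D1 φ u₀ w)
    (hs : s ∈ p) (hsφ : ∀ w : m, Q s w = D2 φ u₀ v w) :
    Tendsto (fun n => ((ε n)⁻¹) ^ 2 * Rform P (LL Q Pk Pp r (t n) φ) (u n) (b n)) atTop
      (𝓝 (R2 Q Ph Pk P φ r u₀ v x s τ a c z)) := by
  have ht0 : Tendsto t atTop (𝓝 0) := by
    have h1 := hε0.mul ht
    rw [zero_mul] at h1
    refine h1.congr fun n => ?_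
    rw [← mul_assoc, mul_inv_cancel₀ (hε n).ne', one_mul]
  obtain ⟨t₀, ht₀, hM⟩ := LL_mink hS hm hP hφ hr
  have e1 : ∀ᶠ n in atTop, |t n| < t₀ := by
    have := (continuous_abs.tendsto (0 : ℝ)).comp ht0
    rw [abs_zero] at this
    exact this.eventually (gt_mem_nhds ht₀)
  have e2 : ∀ᶠ n in atTop, u n ≠ 0 := hu.eventually_ne hu₀
  obtain ⟨N, hN⟩ := eventually_atTop.1 (e1.and e2)
  rw [← tendsto_add_atTop_iff_nat N]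
  exact Lim5.main hS hm hP hφ hr (t := fun n => t (n + N)) (ε := fun n => ε (n + N))
    (u := fun n => u (n + N)) (b := fun n => b (n + N)) (fun n => hε _)
    ((tendsto_add_atTop_iff_nat N).2 hε0)
    ((tendsto_add_atTop_iff_nat (f := fun n => (ε n)⁻¹ * t n) N).2 ht) hu₀
    ((tendsto_add_atTop_iff_nat N).2 hu) ((tendsto_add_atTop_iff_nat N).2 hb) hup hvp huv
    ((tendsto_add_atTop_iff_nat (f := fun n => (ε n)⁻¹ • Pk (u n)) N).2 ha)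
    ((tendsto_add_atTop_iff_nat (f := fun n => (ε n)⁻¹ • Pk (b n)) N).2 hc)
    ((tendsto_add_atTop_iff_nat (f := fun n => (ε n)⁻¹ • ⁅Pp (u n : 𝔸), Pp (b n : 𝔸)⁆) N).2 hz)
    hx hxφ hs hsφ
    (fun n => (hN (n + N) (Nat.le_add_left _ _)).2)
    (fun n => (hM _ (hN (n + N) (Nat.le_add_left _ _)).1).1)

end Pool.Agent.Helper93.Fin
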