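import Pool.Agent.helper10.HB_BL

/-! HB-BAD: the bad events are summable. -/

open MeasureTheory ProbabilityTheory Set Filter Topology
open scoped ENNReal NNReal

namespace Pool.Agent.helper10.HB
open Pool.Agent.helper23.HB

theorem mBAD (hBLK : St_BLK) (hGAU : St_GAU) : St_BAD := by
  intro Ω _ P _ X hX ε hε
  obtain ⟨C, hC⟩ : ∃ C, C = ∫⁻ ω, ENNReal.ofReal (Real.exp (2 * ε * (blk 1 (X ω) 0).2)) ∂P :=
    ⟨_, rfl⟩
  have hCtop : C ≠ ∞ := by
    rw [hC]
    exact (hGAU Ω P X hX 1 one_pos).2.2.1 (2 * ε)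
  have hbnd : ∀ m : ℕ, P {ω | bad ε m (blk 1 (X ω))} ≤
      C * ENNReal.ofReal (((m : ℝ) + 1) * Real.exp (-(ε ^ 2 / 2)) ^ m) := by
    intro m
    -- sums
    have hk : ∀ k < m, P {ω | ε * m ≤ (∑ j ∈ Finset.Ico k m, (blk 1 (X ω) j).1) +
        (blk 1 (X ω) k).2} ≤ C * ENNReal.ofReal (Real.exp (-(ε ^ 2 / 2)) ^ m) := by
      intro k hk
      have hm : Measurable (fun ω => (∑ j ∈ Finset.Ico k m, (blk 1 (X ω) j).1) +
          (blk 1 (X ω) k).2) :=
        (Finset.measurable_fun_sum _ fun j _ => (meas_blk hX 1 j).fst).add (meas_blk hX 1 k).snd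
      have h1 := chernoff (P := P) hm (ε * m) ε hε.le
      have h2 : ∀ ω, ENNReal.ofReal (Real.exp (ε * ((∑ j ∈ Finset.Ico k m, (blk 1 (X ω) j).1) +
          (blk 1 (X ω) k).2))) ≤ ∏ j ∈ Finset.Ico k m, (if j = k then
            ENNReal.ofReal (Real.exp (2 * ε * (blk 1 (X ω) j).2)) else
            ENNReal.ofReal (Real.exp (ε * (blk 1 (X ω) j).1))) := by
        intro ω
        have h3 : (∏ j ∈ Finset.Ico k m, (if j = k then
            ENNReal.ofReal (Real.exp (2 * ε * (blk 1 (X ω) j).2)) else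
            ENNReal.ofReal (Real.exp (ε * (blk 1 (X ω) j).1)))) =
            ENNReal.ofReal (Real.exp (2 * ε * (blk 1 (X ω) k).2)) *
            ENNReal.ofReal (Real.exp (∑ j ∈ Finset.Ico (k + 1) m, ε * (blk 1 (X ω) j).1)) := by
          rw [Finset.prod_eq_prod_Ico_succ_bot hk, if_pos rfl, ofReal_exp_sum]
          congr 1
          refine Finset.prod_congr rfl fun j hj => ?_
          rw [if_neg]
          have := (Finset.mem_Ico.mp hj).1
          omega
        rw [h3, ← ofReal_exp_add]
        refine ENNReal.ofReal_le_ofReal (Real.exp_le_exp.mpr ?_)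
        rw [Finset.sum_eq_sum_Ico_succ_bot hk, ← Finset.mul_sum]
        have h4 : (blk 1 (X ω) k).1 ≤ (blk 1 (X ω) k).2 :=
          (le_abs_self _).trans (abs_sub_le_blk (hX.cont ω) 1 k zero_le_one le_rfl)
        nlinarith
      have h5 := int_prod hBLK hX one_pos (Finset.Ico k m)
        (fun j x => if j = k then ENNReal.ofReal (Real.exp (2 * ε * x.2)) else
            ENNReal.ofReal (Real.exp (ε * x.1))) (fun j => by
              by_cases hj : j = k
              · simp only [hj, if_true]; fun_prop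
              · simp only [hj, if_false]; fun_prop)
      have h6 : ∏ j ∈ Finset.Ico k m, ∫⁻ ω, (if j = k then
          ENNReal.ofReal (Real.exp (2 * ε * (blk 1 (X ω) 0).2)) else
            ENNReal.ofReal (Real.exp (ε * (blk 1 (X ω) 0).1))) ∂P ≤
          C * ENNReal.ofReal (Real.exp (ε ^ 2 / 2 * m)) := by
        rw [Finset.prod_eq_prod_Ico_succ_bot hk]
        simp only [↓reduceIte]
        rw [← hC]
        gcongr
        have h7 : ∏ j ∈ Finset.Ico (k + 1) m, ∫⁻ ω, (if j = k then
            ENNReal.ofReal (Real.exp (2 * ε * (blk 1 (X ω) 0).2)) else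
            ENNReal.ofReal (Real.exp (ε * (blk 1 (X ω) 0).1))) ∂P =
            ∏ _j ∈ Finset.Ico (k + 1) m, ENNReal.ofReal (Real.exp (ε ^ 2 / 2)) := by
          refine Finset.prod_congr rfl fun j hj => ?_
          have hjk : j ≠ k := by
            have := (Finset.mem_Ico.mp hj).1
            omega
          simp only [hjk, if_false]
          exact int_exp_D hGAU hX ε
        rw [h7, ← ofReal_exp_sum]
        refine ENNReal.ofReal_le_ofReal (Real.exp_le_exp.mpr ?_)
        rw [Finset.sum_const, Nat.card_Ico, nsmul_eq_mul, mul_comm]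
        refine mul_le_mul_of_nonneg_left ?_ (by positivity)
        exact_mod_cast Nat.sub_le _ _
      calc _ ≤ _ := h1
        _ ≤ ENNReal.ofReal (Real.exp (-ε * (ε * m))) *
            (C * ENNReal.ofReal (Real.exp (ε ^ 2 / 2 * m))) := by
            gcongr
            exact (lintegral_mono h2).trans (h5.le.trans h6)
        _ = _ := by
            rw [← mul_assoc, mul_comm _ C, mul_assoc, ← ofReal_exp_add, ← Real.exp_nat_mul]
            congr 3
            ring
    have hlast : P {ω | ε * m ≤ (blk 1 (X ω) m).2} ≤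
        C * ENNReal.ofReal (Real.exp (-(ε ^ 2 / 2)) ^ m) := by
      have h1 := chernoff (P := P) (meas_blk hX 1 m).snd (ε * m) (2 * ε) (by positivity)
      refine h1.trans ?_
      rw [int_blk hBLK hX one_pos (f := fun x => ENNReal.ofReal (Real.exp (2 * ε * x.2)))
        (by fun_prop) m, ← hC, mul_comm C]
      gcongr
      rw [← Real.exp_nat_mul]
      refine Real.exp_le_exp.mpr ?_
      have : (0 : ℝ) ≤ m := Nat.cast_nonneg m
      nlinarith [mul_nonneg this (sq_nonneg ε)]
    have hsub : {ω | bad ε m (blk 1 (X ω))} ⊆ (⋃ k ∈ Finset.range m,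
        {ω | ε * m ≤ (∑ j ∈ Finset.Ico k m, (blk 1 (X ω) j).1) + (blk 1 (X ω) k).2}) ∪
        {ω | ε * m ≤ (blk 1 (X ω) m).2} := by
      rintro ω (⟨k, hk, h⟩ | h)
      · left
        simp only [mem_iUnion]
        exact ⟨k, Finset.mem_range.mpr hk, h⟩
      · exact Or.inr h
    calc P {ω | bad ε m (blk 1 (X ω))} ≤ _ := measure_mono hsub
      _ ≤ _ := measure_union_le _ _
      _ ≤ ∑ k ∈ Finset.range m, C * ENNReal.ofReal (Real.exp (-(ε ^ 2 / 2)) ^ m) +
          C * ENNReal.ofReal (Real.exp (-(ε ^ 2 / 2)) ^ m) := by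
          gcongr
          refine (measure_biUnion_finset_le _ _).trans ?_
          exact Finset.sum_le_sum fun k hk' => hk k (Finset.mem_range.mp hk')
      _ = _ := by
          rw [Finset.sum_const, Finset.card_range, nsmul_eq_mul,
            ENNReal.ofReal_mul (by positivity), ENNReal.ofReal_add (by positivity) zero_le_one,
            ENNReal.ofReal_natCast, ENNReal.ofReal_one]
          ring
  refine ne_top_of_le_ne_top ?_ (ENNReal.tsum_le_tsum hbnd)
  rw [ENNReal.tsum_mul_left]
  refine ENNReal.mul_ne_top hCtop (Summable.tsum_ofReal_ne_top ?_)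
  have hr : ‖Real.exp (-(ε ^ 2 / 2))‖ < 1 := by
    rw [Real.norm_eq_abs, abs_of_pos (Real.exp_pos _), Real.exp_lt_one_iff]
    have : 0 < ε ^ 2 := by positivity
    linarith
  have h1 := summable_pow_mul_geometric_of_norm_lt_one 1 hr
  have h2 := summable_geometric_of_norm_lt_one hr
  have h3 := h1.add h2
  refine h3.congr fun m => ?_
  ring

end Pool.Agent.helper10.HB
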