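import Pool.Agent.helper10.HB_LIN

/-! HB: general tools for the blocks of a Brownian motion. -/

open MeasureTheory ProbabilityTheory Set Filter Topology
open scoped ENNReal NNReal

namespace Pool.Agent.helper10.HB
open Pool.Agent.helper23.HB

variable {Ω : Type} [MeasurableSpace Ω] {P : Measure Ω} [IsProbabilityMeasure P] {X : Ω → ℝ → ℝ}

omit [IsProbabilityMeasure P] in
theorem meas_blk (hX : BMp P X) (h : ℝ) (k : ℕ) : Measurable (fun ω => blk h (X ω) k) :=
  (measurable_pi_apply k).comp (measurable_blk h hX.cont hX.meas)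

/-- integral of a function of one block -/
theorem int_blk (hBLK : St_BLK) (hX : BMp P X) {h : ℝ} (hh : 0 < h) {f : ℝ × ℝ → ℝ≥0∞}
    (hf : Measurable f) (k : ℕ) :
    ∫⁻ ω, f (blk h (X ω) k) ∂P = ∫⁻ ω, f (blk h (X ω) 0) ∂P := by
  rw [← lintegral_map hf (meas_blk hX h k), (hBLK Ω P X hX h hh).2.1 k,
    lintegral_map hf (meas_blk hX h 0)]

/-- product of functions of different blocks -/
theorem int_prod (hBLK : St_BLK) (hX : BMp P X) {h : ℝ} (hh : 0 < h) (s : Finset ℕ)
    (f : ℕ → ℝ × ℝ → ℝ≥0∞) (hf : ∀ k, Measurable (f k)) :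
    ∫⁻ ω, ∏ k ∈ s, f k (blk h (X ω) k) ∂P = ∏ k ∈ s, ∫⁻ ω, f k (blk h (X ω) 0) ∂P := by
  have h1 := lintegral_prod_eq_prod_lintegral_of_indepFun s (fun k ω => f k (blk h (X ω) k))
    ((hBLK Ω P X hX h hh).1.comp f hf) (fun k => (hf k).comp (meas_blk hX h k))
  rw [h1]
  exact Finset.prod_congr rfl fun k _ => int_blk hBLK hX hh (hf k) k

/-- a function of the first `m` blocks times a function of the block `m` -/
theorem int_indep (hBLK : St_BLK) (hX : BMp P X) {h : ℝ} (hh : 0 < h) (m : ℕ)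
    (F : (ℕ → ℝ × ℝ) → ℝ≥0∞) (hF : Measurable F)
    (hdep : ∀ x y : ℕ → ℝ × ℝ, (∀ k < m, x k = y k) → F x = F y) (g : ℝ × ℝ → ℝ≥0∞)
    (hg : Measurable g) :
    ∫⁻ ω, F (blk h (X ω)) * g (blk h (X ω) m) ∂P =
      (∫⁻ ω, F (blk h (X ω)) ∂P) * ∫⁻ ω, g (blk h (X ω) 0) ∂P := by
  have hind := (hBLK Ω P X hX h hh).1.indepFun_finset (Finset.range m) {m} (by simp)
    (fun k => meas_blk hX h k)
  let E : ((i : Finset.range m) → ℝ × ℝ) → (ℕ → ℝ × ℝ) :=
    fun v k => if h : k ∈ Finset.range m then v ⟨k, h⟩ else (0, 0)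
  have hE : Measurable E := by
    refine measurable_pi_lambda _ fun k => ?_
    by_cases hk : k ∈ Finset.range m
    · simp only [E, hk, dite_true]
      exact measurable_pi_apply _
    · simp only [E, hk, dite_false]
      exact measurable_const
  have hψ : Measurable (fun v : (({m} : Finset ℕ) → ℝ × ℝ) => g (v ⟨m, by simp⟩)) :=
    hg.comp (measurable_pi_apply _)
  have h2 := hind.comp (hF.comp hE) hψ
  have h3 : (fun ω => F (blk h (X ω))) =
      (F ∘ E) ∘ (fun a (i : Finset.range m) => blk h (X a) i) := by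
    funext ω
    refine hdep _ _ fun k hk => ?_
    simp [E, hk]
  have h4 : IndepFun (fun ω => F (blk h (X ω))) (fun ω => g (blk h (X ω) m)) P := by
    rw [h3]
    exact h2
  have hmF : Measurable (fun ω => F (blk h (X ω))) := hF.comp (measurable_blk h hX.cont hX.meas)
  have hmg : Measurable (fun ω => g (blk h (X ω) m)) := hg.comp (meas_blk hX h m)
  rw [lintegral_mul_eq_lintegral_mul_lintegral_of_indepFun'' hmF.aemeasurable hmg.aemeasurable h4,
    int_blk hBLK hX hh hg]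

theorem int_exp_D (hGAU : St_GAU) (hX : BMp P X) (a : ℝ) :
    ∫⁻ ω, ENNReal.ofReal (Real.exp (a * (blk 1 (X ω) 0).1)) ∂P =
      ENNReal.ofReal (Real.exp (a ^ 2 / 2)) := by
  have h1 := (hGAU Ω P X hX 1 one_pos).1
  have hm : Measurable (fun ω => (blk 1 (X ω) 0).1) := (meas_blk hX 1 0).fst
  have hf : Measurable (fun d : ℝ => ENNReal.ofReal (Real.exp (a * d))) := by fun_prop
  calc ∫⁻ ω, ENNReal.ofReal (Real.exp (a * (blk 1 (X ω) 0).1)) ∂P
      = ∫⁻ d, ENNReal.ofReal (Real.exp (a * d)) ∂(Measure.map (fun ω => (blk 1 (X ω) 0).1) P) :=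
        (lintegral_map hf hm).symm
    _ = ENNReal.ofReal (Real.exp (a ^ 2 / 2)) := by
        rw [h1, Real.toNNReal_one, ← ofReal_integral_eq_lintegral_ofReal
          (integrable_exp_mul_gaussianReal a) (Eventually.of_forall fun _ => (Real.exp_pos _).le),
          int_exp]

theorem Yk_ge (c : ℝ) (x : ℕ → ℝ × ℝ) {n m : ℕ} (h : n ≤ m) :
    Yk c x n + ∑ k ∈ Finset.Ico n m, ((x k).1 + c) ≤ Yk c x m := by
  induction m, h using Nat.le_induction with
  | base => simp
  | succ m hm ih =>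
    rw [Finset.sum_Ico_succ_top hm, ← add_assoc]
    refine le_trans ?_ (le_max_left _ _)
    linarith

theorem ofReal_exp_sum {ι : Type*} (s : Finset ι) (f : ι → ℝ) :
    ENNReal.ofReal (Real.exp (∑ k ∈ s, f k)) = ∏ k ∈ s, ENNReal.ofReal (Real.exp (f k)) := by
  rw [Real.exp_sum, ENNReal.ofReal_prod_of_nonneg fun _ _ => (Real.exp_pos _).le]

theorem ofReal_exp_add (a b : ℝ) :
    ENNReal.ofReal (Real.exp (a + b)) = ENNReal.ofReal (Real.exp a) * ENNReal.ofReal (Real.exp b) := by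
  rw [Real.exp_add, ENNReal.ofReal_mul (Real.exp_pos _).le]

omit [IsProbabilityMeasure P] in
/-- Chernoff bound -/
theorem chernoff {f : Ω → ℝ} (hf : Measurable f) (x θ : ℝ) (hθ : 0 ≤ θ) :
    P {ω | x ≤ f ω} ≤ ENNReal.ofReal (Real.exp (-θ * x)) *
      ∫⁻ ω, ENNReal.ofReal (Real.exp (θ * f ω)) ∂P := by
  have hm : Measurable (fun ω => ENNReal.ofReal (Real.exp (θ * f ω))) := by fun_prop
  have h1 := mul_meas_ge_le_lintegral (μ := P) hm (ENNReal.ofReal (Real.exp (θ * x)))
  have h2 : {ω | x ≤ f ω} ⊆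
      {ω | ENNReal.ofReal (Real.exp (θ * x)) ≤ ENNReal.ofReal (Real.exp (θ * f ω))} := by
    intro ω hω
    exact ENNReal.ofReal_le_ofReal (Real.exp_le_exp.mpr (mul_le_mul_of_nonneg_left hω hθ))
  have h3 : ENNReal.ofReal (Real.exp (-θ * x)) * ENNReal.ofReal (Real.exp (θ * x)) = 1 := by
    rw [← ofReal_exp_add]
    simp
  calc P {ω | x ≤ f ω}
      = ENNReal.ofReal (Real.exp (-θ * x)) * (ENNReal.ofReal (Real.exp (θ * x)) *
          P {ω | x ≤ f ω}) := by rw [← mul_assoc, h3, one_mul]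
    _ ≤ ENNReal.ofReal (Real.exp (-θ * x)) * (ENNReal.ofReal (Real.exp (θ * x)) *
          P {ω | ENNReal.ofReal (Real.exp (θ * x)) ≤ ENNReal.ofReal (Real.exp (θ * f ω))}) := by
        gcongr
    _ ≤ _ := by gcongr

theorem mSUMY (hLIN : St_LIN) (hBLK : St_BLK) (hGAU : St_GAU) : St_SUMY := by
  intro Ω _ P _ X hX β c s hβ hc hs h
  have hD : ∀ k, Measurable (fun ω => (blk 1 (X ω) k).1) := fun k => (meas_blk hX 1 k).fst
  have hiD : iIndepFun (fun (k : ℕ) ω => (blk 1 (X ω) k).1) P :=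
    (hBLK Ω P X hX 1 one_pos).1.comp (fun _ => Prod.fst) (fun _ => measurable_fst)
  have hl : ∀ k, Measure.map (fun ω => (blk 1 (X ω) k).1) P = gaussianReal 0 1 := by
    intro k
    have h1 : Measure.map (fun ω => (blk 1 (X ω) k).1) P =
        Measure.map Prod.fst (Measure.map (fun ω => blk 1 (X ω) k) P) :=
      (Measure.map_map measurable_fst (meas_blk hX 1 k)).symm
    have h2 : Measure.map (fun ω => (blk 1 (X ω) 0).1) P =
        Measure.map Prod.fst (Measure.map (fun ω => blk 1 (X ω) 0) P) :=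
      (Measure.map_map measurable_fst (meas_blk hX 1 0)).symm
    have h3 := (hGAU Ω P X hX 1 one_pos).1
    rw [Real.toNNReal_one] at h3
    rw [h1, (hBLK Ω P X hX 1 one_pos).2.1 k, ← h2, h3]
  have hL := hLIN Ω P _ hD hiD hl β c s hβ hc hs h
  have hS := (hGAU Ω P X hX 1 one_pos).2.2.1 s
  have hterm : ∀ m : ℕ, ∫⁻ ω, ENNReal.ofReal
      (Real.exp (-s * (Yk c (blk 1 (X ω)) m - (blk 1 (X ω) m).2))) ∂P =
      (∫⁻ ω, ENNReal.ofReal
        (Real.exp (-s * Yk c (fun k => ((blk 1 (X ω) k).1, 0)) m)) ∂P) *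
      ∫⁻ ω, ENNReal.ofReal (Real.exp (s * (blk 1 (X ω) 0).2)) ∂P := by
    intro m
    have h1 := int_indep hBLK hX one_pos m (fun x => ENNReal.ofReal (Real.exp (-s * Yk c x m)))
      (Real.measurable_exp.comp (measurable_const.mul (measurable_Yk c m))).ennreal_ofReal
      (fun x y hxy => by rw [Yk_congr c m fun k hk => by rw [hxy k hk]])
      (fun x => ENNReal.ofReal (Real.exp (s * x.2))) (by fun_prop)
    have h2 : ∀ ω, ENNReal.ofReal (Real.exp (-s * (Yk c (blk 1 (X ω)) m - (blk 1 (X ω) m).2))) =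
        ENNReal.ofReal (Real.exp (-s * Yk c (blk 1 (X ω)) m)) *
        ENNReal.ofReal (Real.exp (s * (blk 1 (X ω) m).2)) := by
      intro ω
      rw [← ofReal_exp_add]
      congr 2
      ring
    simp_rw [h2]
    rw [h1]
    congr 1
    refine lintegral_congr fun ω => ?_
    have h3 : Yk c (blk 1 (X ω)) m = Yk c (fun k => ((blk 1 (X ω) k).1, 0)) m :=
      Yk_congr c m fun k _ => rfl
    rw [h3]
  simp_rw [hterm, ← mul_assoc]
  rw [ENNReal.tsum_mul_right]
  exact ENNReal.mul_ne_top hL hS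

theorem mSUM3 (hBLK : St_BLK) (hGAU : St_GAU) : St_SUM3 := by
  intro Ω _ P _ X hX c ε s hc hε hs
  refine ⟨∫⁻ ω, ENNReal.ofReal (Real.exp (s * (blk 1 (X ω) 0).2)) ∂P,
    (hGAU Ω P X hX 1 one_pos).2.2.1 s, ?_, ?_⟩
  · intro n m hnm
    have hpt : ∀ ω, ind (-(ε * n) ≤ ∑ k ∈ Finset.range n, (blk 1 (X ω) k).1) *
        ENNReal.ofReal (Real.exp (-s * (Yk c (blk 1 (X ω)) m - (blk 1 (X ω) m).2))) ≤
        ENNReal.ofReal (Real.exp (-(s * (c - ε) * n))) *
        ((∏ k ∈ Finset.Ico n m, ENNReal.ofReal (Real.exp (-s * ((blk 1 (X ω) k).1 + c)))) *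
        ENNReal.ofReal (Real.exp (s * (blk 1 (X ω) m).2))) := by
      intro ω
      by_cases hE : -(ε * n) ≤ ∑ k ∈ Finset.range n, (blk 1 (X ω) k).1
      · rw [ind_true hE, one_mul, ← ofReal_exp_sum, ← ofReal_exp_add, ← ofReal_exp_add]
        refine ENNReal.ofReal_le_ofReal (Real.exp_le_exp.mpr ?_)
        have h1 := Yk_ge c (blk 1 (X ω)) hnm
        have h2 := Yk_ge c (blk 1 (X ω)) (Nat.zero_le n)
        have h3 : Yk c (blk 1 (X ω)) 0 = 0 := rfl
        rw [h3, zero_add, ← Finset.range_eq_Ico, Finset.sum_add_distrib, Finset.sum_const,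
          Finset.card_range, nsmul_eq_mul] at h2
        rw [← Finset.mul_sum]
        nlinarith
      · rw [ind_false hE, zero_mul]
        exact zero_le
    have hmF : Measurable (fun x : ℕ → ℝ × ℝ =>
        ∏ k ∈ Finset.Ico n m, ENNReal.ofReal (Real.exp (-s * ((x k).1 + c)))) := by
      refine Finset.measurable_fun_prod _ fun k _ => ?_
      exact (Real.measurable_exp.comp (measurable_const.mul
        ((measurable_fst.comp (measurable_pi_apply k)).add_const c))).ennreal_ofReal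
    have h1 := int_indep hBLK hX one_pos m (fun x : ℕ → ℝ × ℝ =>
        ∏ k ∈ Finset.Ico n m, ENNReal.ofReal (Real.exp (-s * ((x k).1 + c)))) hmF
      (fun x y hxy => Finset.prod_congr rfl fun k hk => by
        rw [hxy k (Finset.mem_Ico.mp hk).2])
      (fun x => ENNReal.ofReal (Real.exp (s * x.2))) (by fun_prop)
    have h2 := int_prod hBLK hX one_pos (Finset.Ico n m)
      (fun _ x => ENNReal.ofReal (Real.exp (-s * (x.1 + c)))) (fun _ => by fun_prop)
    have h3 : ∫⁻ ω, ENNReal.ofReal (Real.exp (-s * ((blk 1 (X ω) 0).1 + c))) ∂P =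
        ENNReal.ofReal (Real.exp (-(c * s - s ^ 2 / 2))) := by
      have h4 : ∀ ω, ENNReal.ofReal (Real.exp (-s * ((blk 1 (X ω) 0).1 + c))) =
          ENNReal.ofReal (Real.exp (-(c * s))) *
          ENNReal.ofReal (Real.exp (-s * (blk 1 (X ω) 0).1)) := by
        intro ω
        rw [← ofReal_exp_add]
        congr 2
        ring
      simp_rw [h4]
      rw [lintegral_const_mul, int_exp_D hGAU hX, ← ofReal_exp_add]
      · congr 2
        ring
      · exact (Real.measurable_exp.comp (measurable_const.mul (meas_blk hX 1 0).fst)).ennreal_ofReal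
    have hmm : Measurable (fun ω => (∏ k ∈ Finset.Ico n m, ENNReal.ofReal
        (Real.exp (-s * ((blk 1 (X ω) k).1 + c)))) *
        ENNReal.ofReal (Real.exp (s * (blk 1 (X ω) m).2))) :=
      (hmF.comp (measurable_blk 1 hX.cont hX.meas)).mul
        (Real.measurable_exp.comp (measurable_const.mul (meas_blk hX 1 m).snd)).ennreal_ofReal
    calc _ ≤ ∫⁻ ω, ENNReal.ofReal (Real.exp (-(s * (c - ε) * n))) *
        ((∏ k ∈ Finset.Ico n m, ENNReal.ofReal (Real.exp (-s * ((blk 1 (X ω) k).1 + c)))) *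
        ENNReal.ofReal (Real.exp (s * (blk 1 (X ω) m).2))) ∂P := lintegral_mono hpt
      _ = ENNReal.ofReal (Real.exp (-(s * (c - ε) * n))) *
        ((∏ _k ∈ Finset.Ico n m, ENNReal.ofReal (Real.exp (-(c * s - s ^ 2 / 2)))) *
        ∫⁻ ω, ENNReal.ofReal (Real.exp (s * (blk 1 (X ω) 0).2)) ∂P) := by
          rw [lintegral_const_mul _ hmm, h1, h2, h3]
      _ = _ := by
          rw [← ofReal_exp_sum, ← mul_assoc, ← ofReal_exp_add, mul_comm]
          congr 3
          rw [Finset.sum_const, Nat.card_Ico, nsmul_eq_mul, Nat.cast_sub hnm]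
          ring
  · intro n
    have hm : Measurable (fun ω => ∑ k ∈ Finset.range n, -(blk 1 (X ω) k).1) :=
      Finset.measurable_fun_sum _ fun k _ => (meas_blk hX 1 k).fst.neg
    have h1 := chernoff (P := P) hm (ε * n) ε hε
    have h2 : {ω | ¬(-(ε * n) ≤ ∑ k ∈ Finset.range n, (blk 1 (X ω) k).1)} ⊆
        {ω | ε * n ≤ ∑ k ∈ Finset.range n, -(blk 1 (X ω) k).1} := by
      intro ω hω
      simp only [mem_ofPred_eq, not_le, Finset.sum_neg_distrib] at hω ⊢
      linarith
    have h3 : ∀ ω, ENNReal.ofReal (Real.exp (ε * ∑ k ∈ Finset.range n, -(blk 1 (X ω) k).1)) =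
        ∏ k ∈ Finset.range n, ENNReal.ofReal (Real.exp (-ε * (blk 1 (X ω) k).1)) := by
      intro ω
      rw [← ofReal_exp_sum, Finset.mul_sum]
      congr 3
      funext k
      ring
    have h4 := int_prod hBLK hX one_pos (Finset.range n)
      (fun _ x => ENNReal.ofReal (Real.exp (-ε * x.1))) (fun _ => by fun_prop)
    calc _ ≤ P {ω | ε * n ≤ ∑ k ∈ Finset.range n, -(blk 1 (X ω) k).1} := measure_mono h2
      _ ≤ _ := h1
      _ = ENNReal.ofReal (Real.exp (-ε * (ε * n))) *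
          ∏ _k ∈ Finset.range n, ENNReal.ofReal (Real.exp ((-ε) ^ 2 / 2)) := by
          simp_rw [h3]
          rw [h4, int_exp_D hGAU hX]
      _ = _ := by
          rw [← ofReal_exp_sum, ← ofReal_exp_add]
          congr 2
          rw [Finset.sum_const, Finset.card_range, nsmul_eq_mul]
          ring

end Pool.Agent.helper10.HB
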