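import Pool.Agent.helper23.HB.Stmts

/-! HB-LIN: the reflected Gaussian walk, including the critical case. -/

open MeasureTheory ProbabilityTheory Set Filter Topology
open scoped ENNReal NNReal

namespace Pool.Agent.helper10.HB
open Pool.Agent.helper23.HB

/-- the walk at time `m` depends on the first `m` steps only -/
theorem Yk_congr (c : ℝ) {x y : ℕ → ℝ × ℝ} (m : ℕ) (h : ∀ k < m, (x k).1 = (y k).1) :
    Yk c x m = Yk c y m := by
  induction m with
  | zero => rfl
  | succ m ih =>
    simp only [Yk]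
    rw [ih (fun k hk => h k (by omega)), h m (by omega)]

theorem Yk_nonneg (c : ℝ) (x : ℕ → ℝ × ℝ) (m : ℕ) : 0 ≤ Yk c x m := by
  cases m with
  | zero => exact le_rfl
  | succ m => exact le_max_right _ _

theorem indep_Yk {Ω : Type} [MeasurableSpace Ω] {P : Measure Ω} {D : ℕ → Ω → ℝ}
    (hD : ∀ k, Measurable (D k)) (hi : iIndepFun D P) (c : ℝ) (m : ℕ) :
    IndepFun (fun ω => Yk c (fun k => (D k ω, 0)) m) (D m) P := by
  have h := hi.indepFun_finset (Finset.range m) {m} (by simp) hD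
  let E : ((i : Finset.range m) → ℝ) → (ℕ → ℝ × ℝ) :=
    fun v k => if h : k ∈ Finset.range m then (v ⟨k, h⟩, 0) else (0, 0)
  have hE : Measurable E := by
    refine measurable_pi_lambda _ fun k => ?_
    by_cases hk : k ∈ Finset.range m
    · simp only [E, hk, dite_true]
      exact (measurable_pi_apply _).prodMk measurable_const
    · simp only [E, hk, dite_false]
      exact measurable_const
  have hψ : Measurable (fun v : (({m} : Finset ℕ) → ℝ) => v ⟨m, by simp⟩) :=
    measurable_pi_apply _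
  have h2 := h.comp ((measurable_Yk c m).comp hE) hψ
  have h3 : (fun ω => Yk c (fun k => (D k ω, 0)) m) =
      (fun v => Yk c (E v) m) ∘ (fun a (i : Finset.range m) => D i a) := by
    funext ω
    refine Yk_congr c m fun k hk => ?_
    simp [E, hk]
  rw [h3]
  exact h2

theorem lintegral_step {Ω : Type} [MeasurableSpace Ω] {P : Measure Ω} [IsProbabilityMeasure P]
    {D : ℕ → Ω → ℝ} (hD : ∀ k, Measurable (D k)) (hi : iIndepFun D P)
    (hl : ∀ k, Measure.map (D k) P = gaussianReal 0 1) (c : ℝ) (m : ℕ) {f : ℝ → ℝ≥0∞}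
    (hf : Measurable f) :
    ∫⁻ ω, f (Yk c (fun k => (D k ω, 0)) (m + 1)) ∂P =
      ∫⁻ ω, ∫⁻ d, f (max (Yk c (fun k => (D k ω, 0)) m + d + c) 0) ∂(gaussianReal 0 1) ∂P := by
  have hY : Measurable (fun ω => Yk c (fun k => (D k ω, 0)) m) :=
    (measurable_Yk c m).comp (measurable_pi_lambda _ fun k => (hD k).prodMk measurable_const)
  have h1 := (indepFun_iff_map_prod_eq_prod_map_map hY.aemeasurable (hD m).aemeasurable).mp
    (indep_Yk hD hi c m)
  have hg : Measurable (fun z : ℝ × ℝ => f (max (z.1 + z.2 + c) 0)) :=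
    hf.comp (((measurable_fst.add measurable_snd).add measurable_const).max measurable_const)
  calc ∫⁻ ω, f (Yk c (fun k => (D k ω, 0)) (m + 1)) ∂P
      = ∫⁻ ω, (fun z : ℝ × ℝ => f (max (z.1 + z.2 + c) 0))
          (Yk c (fun k => (D k ω, 0)) m, D m ω) ∂P := rfl
    _ = ∫⁻ z, f (max (z.1 + z.2 + c) 0)
          ∂(Measure.map (fun ω => (Yk c (fun k => (D k ω, 0)) m, D m ω)) P) :=
        (lintegral_map hg (hY.prodMk (hD m))).symm
    _ = ∫⁻ y, ∫⁻ d, f (max (y + d + c) 0) ∂(gaussianReal 0 1)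
          ∂(Measure.map (fun ω => Yk c (fun k => (D k ω, 0)) m) P) := by
        rw [h1, hl m, lintegral_prod _ hg.aemeasurable]
    _ = _ := lintegral_map hg.lintegral_prod_right' hY

/-- the supersolution criterion -/
theorem super {Ω : Type} [MeasurableSpace Ω] {P : Measure Ω} [IsProbabilityMeasure P]
    {D : ℕ → Ω → ℝ} (hD : ∀ k, Measurable (D k)) (hi : iIndepFun D P)
    (hl : ∀ k, Measure.map (D k) P = gaussianReal 0 1) (c β s κ : ℝ) (hκ : 0 < κ)
    (φ : ℝ → ℝ) (hφ : Measurable φ) (hpos : ∀ y, 0 ≤ y → 0 ≤ φ y) (G : ℝ → ℝ → ℝ)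
    (hG : ∀ y, 0 ≤ y → Integrable (G y) (gaussianReal 0 1))
    (hφG : ∀ y d, 0 ≤ y → φ (max (y + d + c) 0) ≤ G y d)
    (h : ∀ y, 0 ≤ y → Real.exp β * ∫ d, G y d ∂(gaussianReal 0 1) + κ * Real.exp (-s * y) ≤ φ y) :
    ∑' m : ℕ, ENNReal.ofReal (Real.exp (β * m)) *
      ∫⁻ ω, ENNReal.ofReal (Real.exp (-s * Yk c (fun k => (D k ω, 0)) m)) ∂P ≠ ∞ := by
  have hφ' : Measurable (fun y => ENNReal.ofReal (φ y)) := hφ.ennreal_ofReal
  -- pointwise inequality
  have hp : ∀ y, 0 ≤ y → ENNReal.ofReal (Real.exp β) *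
      ∫⁻ d, ENNReal.ofReal (φ (max (y + d + c) 0)) ∂(gaussianReal 0 1) +
      ENNReal.ofReal κ * ENNReal.ofReal (Real.exp (-s * y)) ≤ ENNReal.ofReal (φ y) := by
    intro y hy
    have hG0 : ∀ d, 0 ≤ G y d := fun d => (hpos _ (le_max_right _ _)).trans (hφG y d hy)
    have h1 : ∫⁻ d, ENNReal.ofReal (φ (max (y + d + c) 0)) ∂(gaussianReal 0 1) ≤
        ENNReal.ofReal (∫ d, G y d ∂(gaussianReal 0 1)) := by
      rw [ofReal_integral_eq_lintegral_ofReal (hG y hy) (Eventually.of_forall hG0)]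
      exact lintegral_mono fun d => ENNReal.ofReal_le_ofReal (hφG y d hy)
    calc ENNReal.ofReal (Real.exp β) *
          ∫⁻ d, ENNReal.ofReal (φ (max (y + d + c) 0)) ∂(gaussianReal 0 1) +
          ENNReal.ofReal κ * ENNReal.ofReal (Real.exp (-s * y))
        ≤ ENNReal.ofReal (Real.exp β) * ENNReal.ofReal (∫ d, G y d ∂(gaussianReal 0 1)) +
          ENNReal.ofReal κ * ENNReal.ofReal (Real.exp (-s * y)) := by gcongr
      _ = ENNReal.ofReal (Real.exp β * ∫ d, G y d ∂(gaussianReal 0 1) +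
            κ * Real.exp (-s * y)) := by
          rw [ENNReal.ofReal_add, ENNReal.ofReal_mul (Real.exp_pos _).le,
            ENNReal.ofReal_mul hκ.le]
          · exact mul_nonneg (Real.exp_pos _).le (integral_nonneg hG0)
          · exact mul_nonneg hκ.le (Real.exp_pos _).le
      _ ≤ _ := ENNReal.ofReal_le_ofReal (h y hy)
  -- one step
  have hstep : ∀ m : ℕ, ENNReal.ofReal (Real.exp β) *
      ∫⁻ ω, ENNReal.ofReal (φ (Yk c (fun k => (D k ω, 0)) (m + 1))) ∂P +
      ENNReal.ofReal κ * ∫⁻ ω, ENNReal.ofReal (Real.exp (-s * Yk c (fun k => (D k ω, 0)) m)) ∂P ≤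
      ∫⁻ ω, ENNReal.ofReal (φ (Yk c (fun k => (D k ω, 0)) m)) ∂P := by
    intro m
    have hY : Measurable (fun ω => Yk c (fun k => (D k ω, 0)) m) :=
      (measurable_Yk c m).comp (measurable_pi_lambda _ fun k => (hD k).prodMk measurable_const)
    rw [lintegral_step hD hi hl c m hφ']
    have hg : Measurable (fun z : ℝ × ℝ => ENNReal.ofReal (φ (max (z.1 + z.2 + c) 0))) :=
      hφ'.comp (((measurable_fst.add measurable_snd).add measurable_const).max measurable_const)
    have hm1 : Measurable (fun ω => ∫⁻ d, ENNReal.ofReal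
        (φ (max (Yk c (fun k => (D k ω, 0)) m + d + c) 0)) ∂(gaussianReal 0 1)) :=
      hg.lintegral_prod_right'.comp hY
    rw [← lintegral_const_mul _ hm1, ← lintegral_const_mul, ← lintegral_add_left]
    · exact lintegral_mono fun ω => hp _ (Yk_nonneg _ _ _)
    · exact hm1.const_mul _
    · exact (Real.measurable_exp.comp (measurable_const.mul hY)).ennreal_ofReal
  -- telescoping
  have htel : ∀ M : ℕ, ENNReal.ofReal (Real.exp (β * M)) *
      ∫⁻ ω, ENNReal.ofReal (φ (Yk c (fun k => (D k ω, 0)) M)) ∂P +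
      ENNReal.ofReal κ * ∑ m ∈ Finset.range M, ENNReal.ofReal (Real.exp (β * m)) *
        ∫⁻ ω, ENNReal.ofReal (Real.exp (-s * Yk c (fun k => (D k ω, 0)) m)) ∂P ≤
      ENNReal.ofReal (φ 0) := by
    intro M
    induction M with
    | zero => simp [Yk]
    | succ M ih =>
      refine le_trans ?_ ih
      rw [Finset.sum_range_succ, mul_add, add_comm (ENNReal.ofReal κ * _), ← add_assoc]
      refine add_le_add_left ?_ _
      have h1 : ENNReal.ofReal (Real.exp (β * ((M + 1 : ℕ) : ℝ))) =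
          ENNReal.ofReal (Real.exp (β * M)) * ENNReal.ofReal (Real.exp β) := by
        rw [← ENNReal.ofReal_mul (Real.exp_pos _).le, ← Real.exp_add]
        congr 2
        push_cast
        ring
      rw [h1, mul_assoc, mul_left_comm (ENNReal.ofReal κ), ← mul_add]
      gcongr
      exact hstep M
  have hκ0 : ENNReal.ofReal κ ≠ 0 := by
    rw [Ne, ENNReal.ofReal_eq_zero, not_le]
    exact hκ
  have hle : ENNReal.ofReal κ * ∑' m : ℕ, ENNReal.ofReal (Real.exp (β * m)) *
      ∫⁻ ω, ENNReal.ofReal (Real.exp (-s * Yk c (fun k => (D k ω, 0)) m)) ∂P ≤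
      ENNReal.ofReal (φ 0) := by
    rw [← ENNReal.tsum_mul_left]
    refine ENNReal.tsum_le_of_sum_range_le fun M => ?_
    rw [← Finset.mul_sum]
    exact le_trans le_add_self (htel M)
  intro htop
  rw [htop, ENNReal.mul_top hκ0] at hle
  exact absurd hle (by simp)

theorem int_exp (a : ℝ) :
    ∫ d, Real.exp (a * d) ∂(gaussianReal 0 1) = Real.exp (a ^ 2 / 2) := by
  have h := congrFun (mgf_fun_id_gaussianReal (μ := 0) (v := 1)) a
  simp only [mgf] at h
  rw [h]
  congr 1
  simp

theorem int_mul_exp (a : ℝ) : Integrable (fun d => d * Real.exp (a * d)) (gaussianReal 0 1) ∧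
    ∫ d, d * Real.exp (a * d) ∂(gaussianReal 0 1) = a * Real.exp (a ^ 2 / 2) := by
  have hv : a ∈ interior (integrableExpSet (fun x : ℝ => x) (gaussianReal 0 1)) := by
    simp
  constructor
  · have h := integrable_pow_mul_exp_of_mem_interior_integrableExpSet hv 1
    simpa using h
  · have h := deriv_mgf hv
    rw [mgf_fun_id_gaussianReal] at h
    rw [← h]
    have h2 : HasDerivAt (fun t : ℝ => Real.exp ((0 : ℝ) * t + ((1 : ℝ≥0) : ℝ) * t ^ 2 / 2))
        (Real.exp (a ^ 2 / 2) * a) a := by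
      have h3 : HasDerivAt (fun t : ℝ => (0 : ℝ) * t + ((1 : ℝ≥0) : ℝ) * t ^ 2 / 2) a a := by
        have h4 := (((hasDerivAt_id a).pow 2).div_const 2)
        simp only [id, Nat.cast_ofNat, mul_one] at h4
        convert! h4 using 1
        · funext t
          simp
        · simp
      have h5 := h3.exp
      convert! h5 using 2
      simp
    rw [h2.deriv]
    ring

/-- first case -/
theorem case1 {Ω : Type} [MeasurableSpace Ω] {P : Measure Ω} [IsProbabilityMeasure P]
    {D : ℕ → Ω → ℝ} (hD : ∀ k, Measurable (D k)) (hi : iIndepFun D P)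
    (hl : ∀ k, Measure.map (D k) P = gaussianReal 0 1) (c β s : ℝ) (hs : 0 < s)
    (h : β < c * s - s ^ 2 / 2) :
    ∑' m : ℕ, ENNReal.ofReal (Real.exp (β * m)) *
      ∫⁻ ω, ENNReal.ofReal (Real.exp (-s * Yk c (fun k => (D k ω, 0)) m)) ∂P ≠ ∞ := by
  have hint : ∀ y : ℝ, (fun d => Real.exp (-s * (y + d + c))) =
      fun d => Real.exp (-s * (y + c)) * Real.exp (-s * d) := by
    intro y
    funext d
    rw [← Real.exp_add]
    congr 1
    ring
  refine super hD hi hl c β s (1 - Real.exp (β - (c * s - s ^ 2 / 2))) ?_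
    (fun y => Real.exp (-s * y)) ?_ (fun y _ => (Real.exp_pos _).le)
    (fun y d => Real.exp (-s * (y + d + c))) ?_ ?_ ?_
  · have : Real.exp (β - (c * s - s ^ 2 / 2)) < 1 := by
      rw [Real.exp_lt_one_iff]
      linarith
    linarith
  · exact Real.measurable_exp.comp (measurable_const.mul measurable_id)
  · intro y _
    rw [hint]
    exact (integrable_exp_mul_gaussianReal _).const_mul _
  · intro y d _
    refine Real.exp_le_exp.mpr ?_
    have := le_max_left (y + d + c) 0
    nlinarith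
  · intro y _
    rw [hint, integral_const_mul, int_exp, ← mul_assoc, ← Real.exp_add, ← Real.exp_add]
    have : Real.exp (β + -s * (y + c) + (-s) ^ 2 / 2) =
        Real.exp (β - (c * s - s ^ 2 / 2)) * Real.exp (-s * y) := by
      rw [← Real.exp_add]
      congr 1
      ring
    rw [this]
    linarith

/-- pointwise bound by the unreflected function -/
theorem refl_bound {c s R L q : ℝ} (hc : 0 < c) (hs : 0 < s)
    (hR : Real.exp (c * L) + s * Real.exp (s * L) ≤ c * R) (hq1 : c + 1 ≤ q) (hq2 : s ≤ q)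
    (x : ℝ) :
    Real.exp (-c * max x 0) * (max x 0 + R) - Real.exp (-s * max x 0) ≤
      Real.exp (-c * x) * (x + R) - Real.exp (-s * x) +
        2 * Real.exp (-L) * Real.exp (-(q + 1) * x) := by
  have hR0 : 0 ≤ R := by
    have h1 := Real.exp_pos (c * L)
    have h2 := mul_pos hs (Real.exp_pos (s * L))
    by_contra hcon
    push Not at hcon
    nlinarith
  rcases le_total 0 x with hx | hx
  · rw [max_eq_left hx]
    have : 0 ≤ 2 * Real.exp (-L) * Real.exp (-(q + 1) * x) := by positivity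
    linarith
  · rw [max_eq_right hx]
    obtain ⟨z, rfl⟩ : ∃ z, x = -z := ⟨-x, by ring⟩
    have hz : 0 ≤ z := by linarith
    have e1 : -c * -z = c * z := by ring
    have e2 : -s * -z = s * z := by ring
    have e3 : -(q + 1) * -z = (q + 1) * z := by ring
    rw [e1, e2, e3]
    simp only [mul_zero, Real.exp_zero, one_mul, zero_add]
    rcases le_total z L with hzL | hzL
    · -- small `z`
      have h1 : 1 + c * z ≤ Real.exp (c * z) := by
        have := Real.add_one_le_exp (c * z)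
        linarith
      have h2 : Real.exp (s * z) - 1 ≤ s * z * Real.exp (s * L) := by
        have h3 := Real.add_one_le_exp (-(s * z))
        have h4 : Real.exp (s * z) * Real.exp (-(s * z)) = 1 := by
          rw [← Real.exp_add]
          simp
        have h5 : Real.exp (s * z) ≤ Real.exp (s * L) :=
          Real.exp_le_exp.mpr (mul_le_mul_of_nonneg_left hzL hs.le)
        have h6 := Real.exp_pos (s * z)
        have h7 : Real.exp (s * z) * (-(s * z) + 1) ≤ 1 :=
          (mul_le_mul_of_nonneg_left h3 h6.le).trans h4.le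
        have h8 : s * z * Real.exp (s * z) ≤ s * z * Real.exp (s * L) :=
          mul_le_mul_of_nonneg_left h5 (by positivity)
        nlinarith
      have h3 : z * Real.exp (c * z) ≤ z * Real.exp (c * L) :=
        mul_le_mul_of_nonneg_left
          (Real.exp_le_exp.mpr (mul_le_mul_of_nonneg_left hzL hc.le)) hz
      have h4 : z * (Real.exp (c * L) + s * Real.exp (s * L)) ≤ z * (c * R) :=
        mul_le_mul_of_nonneg_left hR hz
      have h5 : R * (1 + c * z) ≤ R * Real.exp (c * z) := mul_le_mul_of_nonneg_left h1 hR0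
      have h6 : 0 ≤ 2 * Real.exp (-L) * Real.exp ((q + 1) * z) := by positivity
      nlinarith
    · -- large `z`
      have h1 : 1 ≤ Real.exp (c * z) := Real.one_le_exp (by positivity)
      have h2 : R ≤ R * Real.exp (c * z) := by nlinarith
      have h3 : z * Real.exp (c * z) ≤ Real.exp (q * z) := by
        have h4 := Real.add_one_le_exp z
        have h5 : Real.exp (z + c * z) ≤ Real.exp (q * z) :=
          Real.exp_le_exp.mpr (by nlinarith)
        rw [Real.exp_add] at h5
        have h6 := Real.exp_pos (c * z)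
        nlinarith
      have h4 : Real.exp (s * z) ≤ Real.exp (q * z) :=
        Real.exp_le_exp.mpr (by nlinarith)
      have h5 : Real.exp (q * z) ≤ Real.exp (-L) * Real.exp ((q + 1) * z) := by
        rw [← Real.exp_add]
        exact Real.exp_le_exp.mpr (by nlinarith)
      nlinarith

/-- second case -/
theorem case2 {Ω : Type} [MeasurableSpace Ω] {P : Measure Ω} [IsProbabilityMeasure P]
    {D : ℕ → Ω → ℝ} (hD : ∀ k, Measurable (D k)) (hi : iIndepFun D P)
    (hl : ∀ k, Measure.map (D k) P = gaussianReal 0 1) (c s : ℝ) (hc : 0 < c) (hcs : c < s) :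
    ∑' m : ℕ, ENNReal.ofReal (Real.exp (c ^ 2 / 2 * m)) *
      ∫⁻ ω, ENNReal.ofReal (Real.exp (-s * Yk c (fun k => (D k ω, 0)) m)) ∂P ≠ ∞ := by
  have hs : 0 < s := hc.trans hcs
  obtain ⟨q, hq1, hq2⟩ : ∃ q, c + 1 ≤ q ∧ s ≤ q := ⟨max (c + 1) s, le_max_left _ _, le_max_right _ _⟩
  set κ : ℝ := (Real.exp ((s - c) ^ 2 / 2) - 1) / 2 with hκdef
  have hκ : 0 < κ := by
    have : 1 < Real.exp ((s - c) ^ 2 / 2) := Real.one_lt_exp_iff.mpr (by nlinarith)
    rw [hκdef]
    linarith
  -- choice of `L`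
  obtain ⟨L, hL, hLκ⟩ : ∃ L : ℝ, 0 < L ∧
      2 * Real.exp (-L) * Real.exp ((q + 1) ^ 2 / 2) * Real.exp (c ^ 2 / 2) ≤ κ := by
    have h1 : Tendsto (fun L : ℝ => 2 * Real.exp (-L) * Real.exp ((q + 1) ^ 2 / 2) *
        Real.exp (c ^ 2 / 2)) atTop (𝓝 0) := by
      have h2 : Tendsto (fun L : ℝ => Real.exp (-L)) atTop (𝓝 0) :=
        Real.tendsto_exp_neg_atTop_nhds_zero
      have h3 := ((h2.const_mul 2).mul_const (Real.exp ((q + 1) ^ 2 / 2))).mul_const
        (Real.exp (c ^ 2 / 2))
      simpa using h3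
    obtain ⟨L, h4, h5⟩ := ((h1.eventually_le_const hκ).and (eventually_gt_atTop 0)).exists
    exact ⟨L, h5, h4⟩
  -- choice of `R`
  obtain ⟨R, hR, hR1⟩ : ∃ R : ℝ, Real.exp (c * L) + s * Real.exp (s * L) ≤ c * R ∧ 1 ≤ R := by
    refine ⟨max ((Real.exp (c * L) + s * Real.exp (s * L)) / c) 1, ?_, le_max_right _ _⟩
    have := mul_le_mul_of_nonneg_left
      (le_max_left ((Real.exp (c * L) + s * Real.exp (s * L)) / c) 1) hc.le
    rwa [mul_div_cancel₀ _ hc.ne'] at this
  have hGeq : ∀ y : ℝ, (fun d : ℝ => Real.exp (-c * (y + d + c)) * ((y + d + c) + R) -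
      Real.exp (-s * (y + d + c)) + 2 * Real.exp (-L) * Real.exp (-(q + 1) * (y + d + c))) =
      fun d : ℝ => (Real.exp (-c * (y + c)) * (y + c + R)) * Real.exp (-c * d) +
        Real.exp (-c * (y + c)) * (d * Real.exp (-c * d)) -
        Real.exp (-s * (y + c)) * Real.exp (-s * d) +
        (2 * Real.exp (-L) * Real.exp (-(q + 1) * (y + c))) * Real.exp (-(q + 1) * d) := by
    intro y
    funext d
    have e1 : Real.exp (-c * (y + d + c)) = Real.exp (-c * (y + c)) * Real.exp (-c * d) := by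
      rw [← Real.exp_add]
      congr 1
      ring
    have e2 : Real.exp (-s * (y + d + c)) = Real.exp (-s * (y + c)) * Real.exp (-s * d) := by
      rw [← Real.exp_add]
      congr 1
      ring
    have e3 : Real.exp (-(q + 1) * (y + d + c)) =
        Real.exp (-(q + 1) * (y + c)) * Real.exp (-(q + 1) * d) := by
      rw [← Real.exp_add]
      congr 1
      ring
    rw [e1, e2, e3]
    ring
  have i1 : ∀ a A : ℝ, Integrable (fun d => A * Real.exp (a * d)) (gaussianReal 0 1) :=
    fun a A => (integrable_exp_mul_gaussianReal a).const_mul A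
  have i2 : ∀ a A : ℝ, Integrable (fun d => A * (d * Real.exp (a * d))) (gaussianReal 0 1) :=
    fun a A => (int_mul_exp a).1.const_mul A
  refine super hD hi hl c (c ^ 2 / 2) s κ hκ
    (fun y => Real.exp (-c * y) * (y + R) - Real.exp (-s * y)) ?_ ?_
    (fun y d => Real.exp (-c * (y + d + c)) * ((y + d + c) + R) -
      Real.exp (-s * (y + d + c)) + 2 * Real.exp (-L) * Real.exp (-(q + 1) * (y + d + c)))
    ?_ ?_ ?_
  · fun_prop
  · intro y hy
    have h1 : Real.exp (-s * y) ≤ Real.exp (-c * y) := Real.exp_le_exp.mpr (by nlinarith)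
    have h2 := Real.exp_pos (-c * y)
    show 0 ≤ Real.exp (-c * y) * (y + R) - Real.exp (-s * y)
    nlinarith
  · intro y _
    show Integrable (fun d : ℝ => Real.exp (-c * (y + d + c)) * ((y + d + c) + R) -
      Real.exp (-s * (y + d + c)) + 2 * Real.exp (-L) * Real.exp (-(q + 1) * (y + d + c))) _
    rw [hGeq]
    exact (((i1 _ _).add (i2 _ _)).sub (i1 _ _)).add (i1 _ _)
  · intro y d _
    exact refl_bound hc hs hR hq1 hq2 (y + d + c)
  · intro y hy
    show Real.exp (c ^ 2 / 2) * ∫ d, (Real.exp (-c * (y + d + c)) * ((y + d + c) + R) -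
      Real.exp (-s * (y + d + c)) + 2 * Real.exp (-L) * Real.exp (-(q + 1) * (y + d + c)))
      ∂(gaussianReal 0 1) + κ * Real.exp (-s * y) ≤ Real.exp (-c * y) * (y + R) - Real.exp (-s * y)
    have hI : ∀ A1 A2 A3 A4 a1 a2 a3 a4 : ℝ, ∫ d, (A1 * Real.exp (a1 * d) +
        A2 * (d * Real.exp (a2 * d)) - A3 * Real.exp (a3 * d) + A4 * Real.exp (a4 * d))
        ∂(gaussianReal 0 1) = A1 * Real.exp (a1 ^ 2 / 2) + A2 * (a2 * Real.exp (a2 ^ 2 / 2)) -
        A3 * Real.exp (a3 ^ 2 / 2) + A4 * Real.exp (a4 ^ 2 / 2) := by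
      intro A1 A2 A3 A4 a1 a2 a3 a4
      have k1 : Integrable (fun d => A1 * Real.exp (a1 * d) + A2 * (d * Real.exp (a2 * d)))
          (gaussianReal 0 1) := (i1 _ _).add (i2 _ _)
      have k2 : Integrable (fun d => A1 * Real.exp (a1 * d) + A2 * (d * Real.exp (a2 * d)) -
          A3 * Real.exp (a3 * d)) (gaussianReal 0 1) := k1.sub (i1 _ _)
      rw [integral_add k2 (i1 _ _), integral_sub k1 (i1 _ _), integral_add (i1 _ _) (i2 _ _),
        integral_const_mul, integral_const_mul, integral_const_mul, integral_const_mul,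
        int_exp, int_exp, int_exp, (int_mul_exp _).2]
    rw [hGeq, hI]
    have e1 : Real.exp (c ^ 2 / 2) * (Real.exp (-c * (y + c)) * Real.exp ((-c) ^ 2 / 2)) =
        Real.exp (-c * y) := by
      rw [← Real.exp_add, ← Real.exp_add]
      congr 1
      ring
    have e2 : Real.exp (c ^ 2 / 2) * (Real.exp (-s * (y + c)) * Real.exp ((-s) ^ 2 / 2)) =
        Real.exp ((s - c) ^ 2 / 2) * Real.exp (-s * y) := by
      rw [← Real.exp_add, ← Real.exp_add, ← Real.exp_add]
      congr 1
      ring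
    have e3 : Real.exp (c ^ 2 / 2) * (2 * Real.exp (-L) * Real.exp (-(q + 1) * (y + c)) *
        Real.exp ((-(q + 1)) ^ 2 / 2)) ≤ κ * Real.exp (-s * y) := by
      have h1 : Real.exp (-(q + 1) * (y + c)) ≤ Real.exp (-s * y) :=
        Real.exp_le_exp.mpr (by nlinarith [mul_nonneg hy (sub_nonneg.mpr hq2)])
      have h2 : Real.exp (c ^ 2 / 2) * (2 * Real.exp (-L) * Real.exp (-(q + 1) * (y + c)) *
          Real.exp ((-(q + 1)) ^ 2 / 2)) = (2 * Real.exp (-L) * Real.exp ((q + 1) ^ 2 / 2) *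
          Real.exp (c ^ 2 / 2)) * Real.exp (-(q + 1) * (y + c)) := by
        rw [neg_sq]
        ring
      rw [h2]
      exact mul_le_mul hLκ h1 (Real.exp_pos _).le hκ.le
    have e4 : Real.exp ((s - c) ^ 2 / 2) = 2 * κ + 1 := by
      rw [hκdef]
      ring
    rw [e4] at e2
    have key : Real.exp (c ^ 2 / 2) * (Real.exp (-c * (y + c)) * (y + c + R) *
          Real.exp ((-c) ^ 2 / 2) + Real.exp (-c * (y + c)) * (-c * Real.exp ((-c) ^ 2 / 2)) -
          Real.exp (-s * (y + c)) * Real.exp ((-s) ^ 2 / 2) +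
          2 * Real.exp (-L) * Real.exp (-(q + 1) * (y + c)) * Real.exp ((-(q + 1)) ^ 2 / 2)) =
        (Real.exp (c ^ 2 / 2) * (Real.exp (-c * (y + c)) * Real.exp ((-c) ^ 2 / 2))) * (y + R) -
        Real.exp (c ^ 2 / 2) * (Real.exp (-s * (y + c)) * Real.exp ((-s) ^ 2 / 2)) +
        Real.exp (c ^ 2 / 2) * (2 * Real.exp (-L) * Real.exp (-(q + 1) * (y + c)) *
          Real.exp ((-(q + 1)) ^ 2 / 2)) := by ring
    rw [key, e1, e2]
    nlinarith

theorem mLIN : St_LIN := by
  intro Ω _ P _ D hD hi hl β c s hβ hc hs h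
  rcases h with h | ⟨rfl, h⟩
  · exact case1 hD hi hl c β s hs h
  · exact case2 hD hi hl c s hc h

end Pool.Agent.helper10.HB
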